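import Pool.Agent.Lib_helper16.TEP.Proc

/-! The integer box gadget. -/

namespace Pool.Agent.Lib_helper16.TEP

/-- squared norm of a digit vector -/
def nrm {t s : ℕ} (v : Fin t → Fin s) : ℕ := ∑ i, (v i : ℕ) ^ 2

theorem nrm_le {t s : ℕ} (v : Fin t → Fin s) : nrm v ≤ t * s ^ 2 := by
  unfold nrm
  calc ∑ i, (v i : ℕ) ^ 2 ≤ ∑ _i : Fin t, s ^ 2 :=
        Finset.sum_le_sum fun i _ => Nat.pow_le_pow_left (v i).2.le 2
    _ = t * s ^ 2 := by simp

/-- garbage of the box gadget -/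
abbrev BoxG (N t s : ℕ) : Type := (Fin t → Fin (N * s + 1)) × Fin (N * (t * s ^ 2) + 1)

theorem dot_le {N t s : ℕ} (v : Fin t → Fin s) (g : BoxG N t s) :
    2 * ∑ i, (g.1 i : ℕ) * (v i : ℕ) + (N * (t * s ^ 2) - (g.2 : ℕ)) <
      3 * (N * (t * s ^ 2)) + 1 := by
  have h : ∑ i, (g.1 i : ℕ) * (v i : ℕ) ≤ N * (t * s ^ 2) := by
    calc ∑ i, (g.1 i : ℕ) * (v i : ℕ) ≤ ∑ _i : Fin t, (N * s) * s :=
          Finset.sum_le_sum fun i _ =>
            Nat.mul_le_mul (Nat.lt_succ_iff.1 (g.1 i).2) (v i).2.le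
      _ = N * (t * s ^ 2) := by
          rw [Finset.sum_const, Finset.card_univ, Fintype.card_fin, smul_eq_mul]
          ring
  omega

/-- the box gadget -/
def boxGadget (N t s : ℕ) : Gadget (Fin t → Fin s) N where
  G := BoxG N t s
  C := Fin (3 * (N * (t * s ^ 2)) + 1)
  load := fun v g =>
    if h : (∀ i, (g.1 i : ℕ) + (v i : ℕ) < N * s + 1) ∧ (g.2 : ℕ) + nrm v < N * (t * s ^ 2) + 1
    then some (fun i => ⟨(g.1 i : ℕ) + (v i : ℕ), h.1 i⟩, ⟨(g.2 : ℕ) + nrm v, h.2⟩) else none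
  unload := fun v g =>
    if (∀ i, (v i : ℕ) ≤ (g.1 i : ℕ)) ∧ nrm v ≤ (g.2 : ℕ)
    then some (fun i => ⟨(g.1 i : ℕ) - (v i : ℕ), lt_of_le_of_lt (Nat.sub_le _ _) (g.1 i).2⟩,
      ⟨(g.2 : ℕ) - nrm v, lt_of_le_of_lt (Nat.sub_le _ _) g.2.2⟩) else none
  color := fun v g => ⟨2 * ∑ i, (g.1 i : ℕ) * (v i : ℕ) + (N * (t * s ^ 2) - (g.2 : ℕ)),
    dot_le v g⟩
  Lvl := fun j g => (∀ i, (g.1 i : ℕ) ≤ j * s) ∧ (g.2 : ℕ) ≤ j * (t * s ^ 2)
  base := (fun _ => 0, 0)
  base_lvl := by simp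
  mono := by
    rintro j g ⟨h1, h2⟩
    refine ⟨fun i => (h1 i).trans (Nat.mul_le_mul_right _ (Nat.le_succ j)),
      h2.trans (Nat.mul_le_mul_right _ (Nat.le_succ j))⟩
  sound := by
    intro v v' h h1 h2 hl hu hc
    split_ifs at hl with hl1
    · split_ifs at hu with hu1
      · simp only [Option.some.injEq] at hl hu
        subst hl
        subst hu
        simp only [Fin.mk.injEq] at hc hu1
        obtain ⟨hv1, hv2⟩ := hu1
        obtain ⟨hl1, hl2⟩ := hl1
        -- pass to the integers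
        have hx : ∀ i, (((h.1 i : ℕ) + (v' i : ℕ) - (v i : ℕ) : ℕ) : ℤ) =
            (h.1 i : ℤ) + (v' i : ℤ) - (v i : ℤ) := by
          intro i
          rw [Nat.cast_sub (hv1 i)]
          push_cast
          ring
        have hw : (((h.2 : ℕ) + nrm v' - nrm v : ℕ) : ℤ) = (h.2 : ℤ) + nrm v' - nrm v := by
          rw [Nat.cast_sub hv2]
          push_cast
          ring
        have hb1 : (h.2 : ℕ) ≤ N * (t * s ^ 2) := Nat.lt_succ_iff.1 h.2.2
        have hb2 : (h.2 : ℕ) + nrm v' - nrm v ≤ N * (t * s ^ 2) := by omega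
        have hcz : (2 * ∑ i, ((h.1 i : ℤ) + (v' i : ℤ) - (v i : ℤ)) * (v i : ℤ) +
            ((N * (t * s ^ 2) : ℕ) - ((h.2 : ℤ) + nrm v' - nrm v)) : ℤ) =
            2 * ∑ i, (h.1 i : ℤ) * (v i : ℤ) + ((N * (t * s ^ 2) : ℕ) - (h.2 : ℤ)) := by
          have h0 := congrArg (fun z : ℕ => (z : ℤ)) hc
          simp only [Nat.cast_add, Nat.cast_mul, Nat.cast_sum, Nat.cast_sub hb1,
            Nat.cast_sub hb2, hx, hw, Nat.cast_ofNat] at h0
          push_cast
          push_cast at h0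
          exact h0
        have hsq : ∑ i, ((v' i : ℤ) - (v i : ℤ)) ^ 2 = 0 := by
          have e1 : ∑ i, ((h.1 i : ℤ) + (v' i : ℤ) - (v i : ℤ)) * (v i : ℤ) =
              ∑ i, (h.1 i : ℤ) * (v i : ℤ) + ∑ i, ((v' i : ℤ) - (v i : ℤ)) * (v i : ℤ) := by
            rw [← Finset.sum_add_distrib]
            exact Finset.sum_congr rfl fun i _ => by ring
          have e2 : ∑ i, ((v' i : ℤ) - (v i : ℤ)) ^ 2 = (nrm v' : ℤ) - nrm v -
              2 * ∑ i, ((v' i : ℤ) - (v i : ℤ)) * (v i : ℤ) := by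
            unfold nrm
            push_cast
            rw [← Finset.sum_sub_distrib, Finset.mul_sum, ← Finset.sum_sub_distrib]
            exact Finset.sum_congr rfl fun i _ => by ring
          rw [e2]
          rw [e1] at hcz
          linarith
        have hv : v' = v := by
          rw [Finset.sum_eq_zero_iff_of_nonneg (fun i _ => sq_nonneg _)] at hsq
          funext i
          have := hsq i (Finset.mem_univ i)
          have h3 : (v' i : ℤ) - (v i : ℤ) = 0 := by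
            exact pow_eq_zero_iff (two_ne_zero) |>.1 this
          apply Fin.ext
          omega
        refine ⟨hv, ?_⟩
        subst hv
        apply Prod.ext
        · funext i
          apply Fin.ext
          simp
        · apply Fin.ext
          simp
  complete := by
    rintro j hj v h ⟨h1, h2⟩
    have hn := nrm_le v
    have a1 : ∀ i, (h.1 i : ℕ) + (v i : ℕ) ≤ (j + 1) * s := by
      intro i
      have := h1 i
      have := (v i).2
      nlinarith
    have a2 : (h.2 : ℕ) + nrm v ≤ (j + 1) * (t * s ^ 2) := by nlinarith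
    have b1 : (j + 1) * s ≤ N * s := Nat.mul_le_mul_right _ hj
    have b2 : (j + 1) * (t * s ^ 2) ≤ N * (t * s ^ 2) := Nat.mul_le_mul_right _ hj
    have hcond : (∀ i, (h.1 i : ℕ) + (v i : ℕ) < N * s + 1) ∧
        (h.2 : ℕ) + nrm v < N * (t * s ^ 2) + 1 :=
      ⟨fun i => Nat.lt_succ_of_le ((a1 i).trans b1), Nat.lt_succ_of_le (a2.trans b2)⟩
    refine ⟨(fun i => ⟨(h.1 i : ℕ) + (v i : ℕ), hcond.1 i⟩, ⟨(h.2 : ℕ) + nrm v, hcond.2⟩),
      dif_pos hcond, ⟨a1, a2⟩, ?_⟩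
    have hc2 : (∀ i, (v i : ℕ) ≤ (h.1 i : ℕ) + (v i : ℕ)) ∧ nrm v ≤ (h.2 : ℕ) + nrm v :=
      ⟨fun i => Nat.le_add_left _ _, Nat.le_add_left _ _⟩
    rw [if_pos hc2]
    congr 1
    apply Prod.ext
    · funext i
      apply Fin.ext
      simp
    · apply Fin.ext
      simp

theorem card_boxG (N t s : ℕ) :
    Fintype.card (boxGadget N t s).G = (N * s + 1) ^ t * (N * (t * s ^ 2) + 1) := by
  show Fintype.card (BoxG N t s) = _
  rw [Fintype.card_prod, Fintype.card_fun, Fintype.card_fin, Fintype.card_fin, Fintype.card_fin]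

theorem card_boxC (N t s : ℕ) :
    Fintype.card (boxGadget N t s).C = 3 * (N * (t * s ^ 2)) + 1 := by
  show Fintype.card (Fin (3 * (N * (t * s ^ 2)) + 1)) = _
  rw [Fintype.card_fin]

end Pool.Agent.Lib_helper16.TEP
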