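import Pool.Agent.Lib_helper16.TEP.Master
import Pool.Agent.Lib_helper16.TEP.GadgetBox

/-! Fixed height: `O(k ^ (4 + ε))` states. -/

namespace Pool.Agent.Lib_helper16.TEP

/-- an injective encoding of `Fin k` by `p` blocks of `t` digits -/
theorem exists_part (k p t s : ℕ) (h : k ≤ s ^ (t * p)) :
    ∃ part : Fin p → Fin k → (Fin t → Fin s),
      ∀ v v' : Fin k, (∀ r, part r v = part r v') → v = v' := by
  have hc : Fintype.card (Fin k) ≤ Fintype.card (Fin p → Fin t → Fin s) := by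
    rw [Fintype.card_fun, Fintype.card_fun, Fintype.card_fin, Fintype.card_fin, Fintype.card_fin,
      Fintype.card_fin, ← pow_mul]
    exact h
  obtain ⟨f⟩ := Function.Embedding.nonempty_of_card_le hc
  exact ⟨fun r v => f v r, fun v v' h => f.injective (funext h)⟩

/-- size for given parameters -/
theorem size_box (n p t s k : ℕ) (hk : 1 ≤ k) (hs : 1 ≤ s) (hks : k ≤ s ^ (t * p))
    {R : Type} [Fintype R] (g : Fin k → R) :
    ∃ B : NBP (Var k n) k R, B.Computes (fun I => g (value n I)) ∧ Thrifty B ∧ B.Unambiguous ∧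
      B.size ≤ (((n + 2) ^ t * ((n + 1) * t + 1)) ^ (2 * p + 1) *
        (((3 * ((n + 1) * t) + 1) ^ (2 * p)) ^ n * (2 * p + 3) ^ n) + 1) *
        Fintype.card R * (s ^ ((t + 2) * (2 * p + 1) + 4 * p * n) * k ^ 2) := by
  obtain ⟨part, hpart⟩ := exists_part k p t s hks
  obtain ⟨B, hB1, hB2, hB4, hB3⟩ := master (boxGadget (n + 1) t s) (Nat.le_succ n) part hpart hk
    ⟨(⟨0, Nat.succ_pos _⟩ : Fin (3 * ((n + 1) * (t * s ^ 2)) + 1))⟩
    g (Fintype.card_pos_iff.2 ⟨g ⟨0, hk⟩⟩)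
  refine ⟨B, hB1, hB2, hB4, hB3.trans ?_⟩
  rw [card_boxG, card_boxC]
  generalize Fintype.card R = rr
  have h1 : (n + 1) * s + 1 ≤ (n + 2) * s := by nlinarith
  have h2 : (n + 1) * (t * s ^ 2) + 1 ≤ ((n + 1) * t + 1) * s ^ 2 := by
    have : 1 ≤ s ^ 2 := Nat.one_le_pow _ _ hs
    nlinarith
  have h3 : 3 * ((n + 1) * (t * s ^ 2)) + 1 ≤ (3 * ((n + 1) * t) + 1) * s ^ 2 := by
    have : 1 ≤ s ^ 2 := Nat.one_le_pow _ _ hs
    nlinarith
  have h4 : 1 ≤ s ^ ((t + 2) * (2 * p + 1) + 4 * p * n) * k ^ 2 :=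
    Nat.mul_pos (Nat.pow_pos hs) (Nat.pow_pos hk)
  calc (((n + 1) * s + 1) ^ t * ((n + 1) * (t * s ^ 2) + 1)) ^ (2 * p + 1) * rr *
        (((3 * ((n + 1) * (t * s ^ 2)) + 1) ^ (2 * p)) ^ n * (2 * p + 3) ^ n * k ^ 2) + rr
      ≤ (((n + 2) * s) ^ t * (((n + 1) * t + 1) * s ^ 2)) ^ (2 * p + 1) * rr *
        ((((3 * ((n + 1) * t) + 1) * s ^ 2) ^ (2 * p)) ^ n * (2 * p + 3) ^ n * k ^ 2) + rr := by
        gcongr
    _ = (((n + 2) ^ t * ((n + 1) * t + 1)) ^ (2 * p + 1) *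
        (((3 * ((n + 1) * t) + 1) ^ (2 * p)) ^ n * (2 * p + 3) ^ n)) * rr *
        (s ^ ((t + 2) * (2 * p + 1) + 4 * p * n) * k ^ 2) + rr := by
        have e1 : (((n + 2) * s) ^ t * (((n + 1) * t + 1) * s ^ 2)) ^ (2 * p + 1) =
            ((n + 2) ^ t * ((n + 1) * t + 1)) ^ (2 * p + 1) * s ^ ((t + 2) * (2 * p + 1)) := by
          have e0 : ((n + 2) * s) ^ t * (((n + 1) * t + 1) * s ^ 2) =
              ((n + 2) ^ t * ((n + 1) * t + 1)) * s ^ (t + 2) := by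
            rw [mul_pow, pow_add]
            ring
          rw [e0, mul_pow, ← pow_mul]
        have e2 : (((3 * ((n + 1) * t) + 1) * s ^ 2) ^ (2 * p)) ^ n =
            ((3 * ((n + 1) * t) + 1) ^ (2 * p)) ^ n * s ^ (4 * p * n) := by
          rw [mul_pow, mul_pow, ← pow_mul, ← pow_mul, ← pow_mul]
          congr 2
          ring
        rw [e1, e2, pow_add]
        ring
    _ ≤ (((n + 2) ^ t * ((n + 1) * t + 1)) ^ (2 * p + 1) *
        (((3 * ((n + 1) * t) + 1) ^ (2 * p)) ^ n * (2 * p + 3) ^ n) + 1) * rr *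
        (s ^ ((t + 2) * (2 * p + 1) + 4 * p * n) * k ^ 2) := by
        generalize ((n + 2) ^ t * ((n + 1) * t + 1)) ^ (2 * p + 1) *
          (((3 * ((n + 1) * t) + 1) ^ (2 * p)) ^ n * (2 * p + 3) ^ n) = A
        generalize s ^ ((t + 2) * (2 * p + 1) + 4 * p * n) * k ^ 2 = T at h4
        have : rr ≤ rr * T := Nat.le_mul_of_pos_right _ h4
        calc A * rr * T + rr ≤ A * rr * T + rr * T := Nat.add_le_add_left this _
          _ = (A + 1) * rr * T := by ring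

theorem thrifty_fixed_height (n : ℕ) (ε : ℝ) (hε : 0 < ε) :
    ∃ K : ℝ, ∀ k : ℕ, 1 ≤ k → ∀ (R : Type) [Fintype R] (g : Fin k → R),
      ∃ B : NBP (Var k n) k R, B.Computes (fun I => g (value n I)) ∧ Thrifty B ∧
        B.Unambiguous ∧ (B.size : ℝ) ≤ K * Fintype.card R * (k : ℝ) ^ (4 + ε) := by
  obtain ⟨p, hp⟩ := exists_nat_ge (2 / ε + 1)
  obtain ⟨t, ht⟩ := exists_nat_ge (2 * (6 + 4 * n) / ε + 1)
  have hp1 : (1 : ℝ) ≤ p := le_trans (by
    have : 0 ≤ 2 / ε := by positivity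
    linarith) hp
  have ht1 : (1 : ℝ) ≤ t := le_trans (by
    have : 0 ≤ 2 * (6 + 4 * (n : ℝ)) / ε := by positivity
    linarith) ht
  have hp0 : (0 : ℝ) < p := by linarith
  have ht0 : (0 : ℝ) < t := by linarith
  set e : ℕ := (t + 2) * (2 * p + 1) + 4 * p * n with he
  set K1 : ℕ := ((n + 2) ^ t * ((n + 1) * t + 1)) ^ (2 * p + 1) *
        (((3 * ((n + 1) * t) + 1) ^ (2 * p)) ^ n * (2 * p + 3) ^ n) + 1 with hK1
  refine ⟨K1 * 2 ^ e, ?_⟩
  intro k hk R _ g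
  have hk0 : (0 : ℝ) < k := by exact_mod_cast hk
  have hk1 : (1 : ℝ) ≤ k := by exact_mod_cast hk
  set y : ℝ := (k : ℝ) ^ ((1 : ℝ) / (t * p)) with hy
  have hy1 : 1 ≤ y := Real.one_le_rpow hk1 (by positivity)
  set s : ℕ := ⌈y⌉₊ with hs
  have hys : y ≤ s := Nat.le_ceil y
  have hs2 : (s : ℝ) ≤ 2 * y := by
    have := Nat.ceil_lt_add_one (show 0 ≤ y by linarith)
    linarith
  have hs1 : 1 ≤ s := by
    have : (1 : ℝ) ≤ s := hy1.trans hys
    exact_mod_cast this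
  have hks : k ≤ s ^ (t * p) := by
    have h1 : (k : ℝ) = y ^ ((t * p : ℕ) : ℝ) := by
      rw [hy, ← Real.rpow_mul hk0.le]
      have : (1 : ℝ) / (t * p) * ((t * p : ℕ) : ℝ) = 1 := by
        push_cast
        field_simp
      rw [this, Real.rpow_one]
    have h2 : (k : ℝ) ≤ ((s ^ (t * p) : ℕ) : ℝ) := by
      rw [h1, Real.rpow_natCast]
      push_cast
      exact pow_le_pow_left₀ (by linarith) hys _
    exact_mod_cast h2
  obtain ⟨B, hB1, hB2, hB4, hB3⟩ := size_box n p t s k hk hs1 hks g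
  refine ⟨B, hB1, hB2, hB4, ?_⟩
  have h3 : (B.size : ℝ) ≤ K1 * Fintype.card R * ((s : ℝ) ^ e * (k : ℝ) ^ 2) := by
    exact_mod_cast hB3
  refine h3.trans ?_
  rw [show (K1 : ℝ) * 2 ^ e * Fintype.card R * (k : ℝ) ^ (4 + ε) =
    K1 * Fintype.card R * (2 ^ e * (k : ℝ) ^ (4 + ε)) by ring]
  refine mul_le_mul_of_nonneg_left ?_ (by positivity)
  have h4 : (s : ℝ) ^ e ≤ 2 ^ e * (k : ℝ) ^ ((e : ℝ) / (t * p)) := by
    calc (s : ℝ) ^ e ≤ (2 * y) ^ e := pow_le_pow_left₀ (by positivity) hs2 _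
      _ = 2 ^ e * y ^ e := mul_pow _ _ _
      _ = 2 ^ e * (k : ℝ) ^ ((e : ℝ) / (t * p)) := by
          rw [hy, ← Real.rpow_natCast ((k : ℝ) ^ ((1 : ℝ) / (t * p))) e, ← Real.rpow_mul hk0.le]
          congr 2
          ring
  have h5 : (e : ℝ) / (t * p) + 2 ≤ 4 + ε := by
    have e1 : (e : ℝ) / (t * p) = 2 + 1 / p + (4 * p + 2) / (t * p) + 4 * n / t := by
      rw [he]
      push_cast
      field_simp
      ring
    have e2 : (4 * (p : ℝ) + 2) / (t * p) ≤ 6 / t := by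
      rw [div_le_div_iff₀ (by positivity) (by positivity)]
      nlinarith
    have e3 : 1 / (p : ℝ) ≤ ε / 2 := by
      have : 2 / ε ≤ p := by linarith
      rw [div_le_iff₀ hε] at this
      rw [div_le_iff₀ hp0]
      linarith
    have e4 : (6 + 4 * (n : ℝ)) / t ≤ ε / 2 := by
      have : 2 * (6 + 4 * (n : ℝ)) / ε ≤ t := by linarith
      rw [div_le_iff₀ hε] at this
      rw [div_le_iff₀ ht0]
      linarith
    have e5 : (6 + 4 * (n : ℝ)) / t = 6 / t + 4 * n / t := by ring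
    rw [e1]
    linarith
  calc (s : ℝ) ^ e * (k : ℝ) ^ 2 ≤ 2 ^ e * (k : ℝ) ^ ((e : ℝ) / (t * p)) * (k : ℝ) ^ 2 := by
        gcongr
    _ = 2 ^ e * (k : ℝ) ^ ((e : ℝ) / (t * p) + 2) := by
        rw [mul_assoc, Real.rpow_add hk0, Real.rpow_ofNat]
    _ ≤ 2 ^ e * (k : ℝ) ^ (4 + ε) := by
        gcongr

end Pool.Agent.Lib_helper16.TEP
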