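import Mathlib

/-! Existence of codes (Gilbert-Varshamov). -/

namespace Pool.Agent.Lib_helper16.TEP

theorem ball_card {t q : ℕ} (hq : 1 ≤ q) (d : ℕ) (c : Fin t → Fin q) :
    (Finset.univ.filter fun w : Fin t → Fin q => hammingDist c w < d).card ≤ 2 ^ t * q ^ d := by
  classical
  let box : Finset (Fin t) → Finset (Fin t → Fin q) := fun S =>
    Fintype.piFinset fun i => if i ∈ S then Finset.univ else {c i}
  have hbox : ∀ S, (box S).card = q ^ S.card := by
    intro S
    rw [Fintype.card_piFinset]
    have : ∀ i, (if i ∈ S then (Finset.univ : Finset (Fin q)) else {c i}).card =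
        if i ∈ S then q else 1 := by
      intro i
      split_ifs <;> simp
    rw [Finset.prod_congr rfl fun i _ => this i]
    rw [Finset.prod_ite_mem, Finset.univ_inter, Finset.prod_const]
  have hsub : (Finset.univ.filter fun w : Fin t → Fin q => hammingDist c w < d) ⊆
      (Finset.univ.filter fun S : Finset (Fin t) => S.card < d).biUnion box := by
    intro w hw
    rw [Finset.mem_filter] at hw
    rw [Finset.mem_biUnion]
    refine ⟨Finset.univ.filter fun i => c i ≠ w i, ?_, ?_⟩
    · rw [Finset.mem_filter]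
      exact ⟨Finset.mem_univ _, hw.2⟩
    · rw [Fintype.mem_piFinset]
      intro i
      by_cases h : c i = w i
      · rw [if_neg (by simp [h]), Finset.mem_singleton]
        exact h.symm
      · rw [if_pos (by simp [h])]
        exact Finset.mem_univ _
  calc (Finset.univ.filter fun w : Fin t → Fin q => hammingDist c w < d).card
      ≤ ((Finset.univ.filter fun S : Finset (Fin t) => S.card < d).biUnion box).card :=
        Finset.card_le_card hsub
    _ ≤ ∑ S ∈ Finset.univ.filter fun S : Finset (Fin t) => S.card < d, (box S).card :=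
        Finset.card_biUnion_le
    _ ≤ ∑ S ∈ Finset.univ.filter fun S : Finset (Fin t) => S.card < d, q ^ d := by
        refine Finset.sum_le_sum fun S hS => ?_
        rw [hbox]
        exact Nat.pow_le_pow_right hq (Finset.mem_filter.1 hS).2.le
    _ ≤ ∑ _S : Finset (Fin t), q ^ d :=
        Finset.sum_le_sum_of_subset (Finset.filter_subset _ _)
    _ = 2 ^ t * q ^ d := by simp

theorem exists_code {t q : ℕ} (hq : 1 ≤ q) {d : ℕ} (hd1 : 1 ≤ d) :
    ∃ C : Finset (Fin t → Fin q), (∀ x ∈ C, ∀ y ∈ C, x ≠ y → d ≤ hammingDist x y) ∧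
      q ^ t ≤ C.card * (2 ^ t * q ^ d) := by
  classical
  let good : Finset (Finset (Fin t → Fin q)) :=
    Finset.univ.filter fun C => ∀ x ∈ C, ∀ y ∈ C, x ≠ y → d ≤ hammingDist x y
  have hne : good.Nonempty := ⟨∅, by simp [good]⟩
  obtain ⟨C, hC, hmax⟩ := Finset.exists_max_image good Finset.card hne
  have hCg : ∀ x ∈ C, ∀ y ∈ C, x ≠ y → d ≤ hammingDist x y := (Finset.mem_filter.1 hC).2
  refine ⟨C, hCg, ?_⟩
  have hcov : (Finset.univ : Finset (Fin t → Fin q)) ⊆
      C.biUnion fun c => Finset.univ.filter fun w : Fin t → Fin q => hammingDist c w < d := by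
    intro w _
    by_contra hw
    rw [Finset.mem_biUnion] at hw
    push Not at hw
    have hd : ∀ c ∈ C, d ≤ hammingDist c w := by
      intro c hc
      have := hw c hc
      rw [Finset.mem_filter] at this
      by_contra h
      exact this ⟨Finset.mem_univ _, not_le.1 h⟩
    have hwC : w ∉ C := by
      intro h
      have := hd w h
      rw [hammingDist_self] at this
      omega
    have hins : insert w C ∈ good := by
      rw [Finset.mem_filter]
      refine ⟨Finset.mem_univ _, ?_⟩
      intro x hx y hy hxy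
      rcases Finset.mem_insert.1 hx with hx' | hx'
      · rcases Finset.mem_insert.1 hy with hy' | hy'
        · exact absurd (hx'.trans hy'.symm) hxy
        · rw [hammingDist_comm, hx']
          exact hd y hy'
      · rcases Finset.mem_insert.1 hy with hy' | hy'
        · rw [hy']
          exact hd x hx'
        · exact hCg x hx' y hy' hxy
    have h1 := hmax _ hins
    rw [Finset.card_insert_of_notMem hwC] at h1
    omega
  calc q ^ t = (Finset.univ : Finset (Fin t → Fin q)).card := by simp
    _ ≤ _ := Finset.card_le_card hcov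
    _ ≤ ∑ c ∈ C, (Finset.univ.filter fun w : Fin t → Fin q => hammingDist c w < d).card :=
        Finset.card_biUnion_le
    _ ≤ ∑ _c ∈ C, 2 ^ t * q ^ d := Finset.sum_le_sum fun c _ => ball_card hq d c
    _ = C.card * (2 ^ t * q ^ d) := by rw [Finset.sum_const, smul_eq_mul]

/-- a code with `k ≤ 2 ^ (a * u)` words, length `4 * u`, alphabet `2 ^ a`, distance `≥ u` -/
theorem exists_words {k a u : ℕ} (ha : 2 ≤ a) (hu : 1 ≤ u) (hk : k ≤ 2 ^ (a * u)) :
    ∃ w : Fin k → (Fin (4 * u) → Fin (2 ^ a)), ∀ v v', v ≠ v' → u ≤ hammingDist (w v) (w v') := by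
  obtain ⟨C, hC1, hC2⟩ := exists_code (t := 4 * u) (q := 2 ^ a) Nat.one_le_two_pow hu
  have hcard : k ≤ C.card := by
    have h1 : 2 ^ (a * u) * (2 ^ (4 * u) * (2 ^ a) ^ u) ≤ C.card * (2 ^ (4 * u) * (2 ^ a) ^ u) := by
      refine le_trans ?_ hC2
      rw [← pow_mul, ← pow_mul, ← pow_add, ← pow_add]
      apply Nat.pow_le_pow_right (by norm_num)
      nlinarith
    have h2 : 0 < 2 ^ (4 * u) * (2 ^ a) ^ u := by positivity
    exact hk.trans (Nat.le_of_mul_le_mul_right h1 h2)
  have hc : Fintype.card (Fin k) ≤ Fintype.card C := by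
    rw [Fintype.card_fin, Fintype.card_coe]
    exact hcard
  obtain ⟨f⟩ := Function.Embedding.nonempty_of_card_le hc
  refine ⟨fun v => (f v : Fin (4 * u) → Fin (2 ^ a)), fun v v' hv => ?_⟩
  refine hC1 _ (f v).2 _ (f v').2 ?_
  intro h
  exact hv (f.injective (Subtype.ext h))

end Pool.Agent.Lib_helper16.TEP
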