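import Pool.Agent.Lib_helper16.TEP.Proc
import Pool.Agent.Lib_helper16.TEP.Code

/-! The modular gadget with an error correcting code. -/

namespace Pool.Agent.Lib_helper16.TEP

/-- modulus -/
def md (q u : ℕ) : ℕ := u * (4 * q ^ 2 + 1)

/-- squared distance -/
def sqd {t q : ℕ} (x y : Fin t → Fin q) : ℕ := ∑ i, ((x i : ℤ) - (y i : ℤ)).natAbs ^ 2

theorem sqd_ge {t q : ℕ} (x y : Fin t → Fin q) : hammingDist x y ≤ sqd x y := by
  unfold hammingDist sqd
  rw [Finset.card_filter]
  refine Finset.sum_le_sum fun i _ => ?_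
  split_ifs with h
  · have : ((x i : ℤ) - (y i : ℤ)).natAbs ≠ 0 := by
      intro h0
      apply h
      rw [Int.natAbs_eq_zero] at h0
      apply Fin.ext
      omega
    exact Nat.one_le_pow _ _ (Nat.pos_of_ne_zero this)
  · exact Nat.zero_le _

theorem sqd_le {t q : ℕ} (x y : Fin t → Fin q) : sqd x y ≤ t * q ^ 2 := by
  unfold sqd
  calc ∑ i, ((x i : ℤ) - (y i : ℤ)).natAbs ^ 2 ≤ ∑ _i : Fin t, q ^ 2 := by
        refine Finset.sum_le_sum fun i _ => Nat.pow_le_pow_left ?_ 2
        have h1 := (x i).2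
        have h2 := (y i).2
        omega
    _ = t * q ^ 2 := by simp

/-- the linear form whose value is the colour -/
def frm {t q m : ℕ} (v : Fin t → Fin q) (g : (Fin t → ZMod m) × ZMod m) : ZMod m :=
  2 * ∑ i, g.1 i * ((v i : ℕ) : ZMod m) - g.2

/-- squared norm modulo `m` -/
def nrmz {t q : ℕ} (m : ℕ) (v : Fin t → Fin q) : ZMod m := ∑ i, (((v i : ℕ) : ZMod m)) ^ 2

theorem frm_shift {t q m : ℕ} (v v' : Fin t → Fin q) (g : (Fin t → ZMod m) × ZMod m) :
    frm v (fun i => g.1 i + ((v' i : ℕ) : ZMod m) - ((v i : ℕ) : ZMod m),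
      g.2 + nrmz m v' - nrmz m v) + (sqd v' v : ZMod m) = frm v g := by
  have h1 : ((sqd v' v : ℕ) : ZMod m) =
      ∑ i, (((v' i : ℕ) : ZMod m) - ((v i : ℕ) : ZMod m)) ^ 2 := by
    unfold sqd
    rw [Nat.cast_sum]
    refine Finset.sum_congr rfl fun i _ => ?_
    have h2 : ((((v' i : ℤ) - (v i : ℤ)).natAbs ^ 2 : ℕ) : ℤ) = ((v' i : ℤ) - (v i : ℤ)) ^ 2 := by
      rw [Nat.cast_pow, Int.natCast_natAbs, sq_abs]
    have h3 := congrArg (fun z : ℤ => (z : ZMod m)) h2
    simp only [Int.cast_natCast] at h3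
    rw [h3]
    push_cast
    rfl
  rw [h1]
  unfold frm nrmz
  simp only
  have h4 : ∑ i, (g.1 i + ((v' i : ℕ) : ZMod m) - ((v i : ℕ) : ZMod m)) * ((v i : ℕ) : ZMod m) =
      ∑ i, g.1 i * ((v i : ℕ) : ZMod m) +
      ∑ i, (((v' i : ℕ) : ZMod m) - ((v i : ℕ) : ZMod m)) * ((v i : ℕ) : ZMod m) := by
    rw [← Finset.sum_add_distrib]
    exact Finset.sum_congr rfl fun i _ => by ring
  have h5 : ∑ i, (((v' i : ℕ) : ZMod m) - ((v i : ℕ) : ZMod m)) ^ 2 =
      ∑ i, ((v' i : ℕ) : ZMod m) ^ 2 - ∑ i, ((v i : ℕ) : ZMod m) ^ 2 -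
      2 * ∑ i, (((v' i : ℕ) : ZMod m) - ((v i : ℕ) : ZMod m)) * ((v i : ℕ) : ZMod m) := by
    rw [Finset.mul_sum, ← Finset.sum_sub_distrib, ← Finset.sum_sub_distrib]
    exact Finset.sum_congr rfl fun i _ => by ring
  rw [h4, h5]
  ring

/-- two residues that differ by `D`, `u ≤ D ≤ m - u`, lie in different strips of width `u` -/
theorem strip {m u D : ℕ} [NeZero m] (hu : 1 ≤ u) (h1 : u ≤ D) (h2 : D + u ≤ m) (x y : ZMod m)
    (h : x + (D : ZMod m) = y) : x.val / u ≠ y.val / u := by
  have hD : ((D : ZMod m)).val = D := ZMod.val_cast_of_lt (by omega)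
  have hx := ZMod.val_lt x
  have hy : y.val = (x.val + D) % m := by
    rw [← h, ZMod.val_add, hD]
  intro he
  by_cases hc : x.val + D < m
  · rw [Nat.mod_eq_of_lt hc] at hy
    have : x.val / u + 1 ≤ y.val / u := by
      rw [hy]
      calc x.val / u + 1 = (x.val + u) / u := by rw [Nat.add_div_right _ (by omega)]
        _ ≤ (x.val + D) / u := Nat.div_le_div_right (by omega)
    omega
  · have hy' : y.val = x.val + D - m := by
      rw [hy, Nat.mod_eq_sub_mod (by omega), Nat.mod_eq_of_lt (by omega)]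
    have : y.val / u + 1 ≤ x.val / u := by
      calc y.val / u + 1 = (y.val + u) / u := by rw [Nat.add_div_right _ (by omega)]
        _ ≤ x.val / u := Nat.div_le_div_right (by omega)
    omega

/-- the modular gadget -/
def modGadget (k q u N : ℕ) (hq : 1 ≤ q) (hu : 1 ≤ u) (w : Fin k → (Fin (4 * u) → Fin q))
    (hw : ∀ v v', v ≠ v' → u ≤ hammingDist (w v) (w v')) : Gadget (Fin k) N :=
  haveI : NeZero (md q u) := ⟨by unfold md; positivity⟩
  { G := (Fin (4 * u) → ZMod (md q u)) × ZMod (md q u)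
    C := Fin (4 * q ^ 2 + 2)
    load := fun v g => some (fun i => g.1 i + ((w v i : ℕ) : ZMod (md q u)),
      g.2 + nrmz (md q u) (w v))
    unload := fun v g => some (fun i => g.1 i - ((w v i : ℕ) : ZMod (md q u)),
      g.2 - nrmz (md q u) (w v))
    color := fun v g => ⟨(frm (w v) g).val / u, by
      have h := ZMod.val_lt (frm (w v) g)
      have : (frm (w v) g).val / u < 4 * q ^ 2 + 1 := by
        rw [Nat.div_lt_iff_lt_mul (by omega)]
        exact lt_of_lt_of_eq h (mul_comm _ _)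
      omega⟩
    Lvl := fun _ _ => True
    base := (fun _ => 0, 0)
    base_lvl := trivial
    mono := fun _ _ _ => trivial
    sound := by
      intro v v' h h1 h2 hl hun hc
      simp only [Option.some.injEq] at hl hun
      subst hl
      subst hun
      simp only [Fin.mk.injEq] at hc
      by_cases hvv : v' = v
      · refine ⟨hvv, ?_⟩
        subst hvv
        apply Prod.ext
        · funext i
          simp
        · simp
      · exfalso
        have hD1 : u ≤ sqd (w v') (w v) := (hw v' v hvv).trans (sqd_ge _ _)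
        have hD2 : sqd (w v') (w v) + u ≤ md q u := by
          have := sqd_le (w v') (w v)
          unfold md
          nlinarith
        exact strip hu hD1 hD2 _ _ (frm_shift (w v) (w v') h) hc
    complete := by
      intro j _ v h _
      refine ⟨_, rfl, trivial, ?_⟩
      simp only [Option.some.injEq]
      apply Prod.ext
      · funext i
        simp
      · simp }

theorem card_modG (k q u N : ℕ) (hq : 1 ≤ q) (hu : 1 ≤ u) (w : Fin k → (Fin (4 * u) → Fin q))
    (hw : ∀ v v', v ≠ v' → u ≤ hammingDist (w v) (w v')) :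
    Fintype.card (modGadget k q u N hq hu w hw).G = md q u ^ (4 * u + 1) := by
  have : NeZero (md q u) := ⟨by unfold md; positivity⟩
  show Fintype.card ((Fin (4 * u) → ZMod (md q u)) × ZMod (md q u)) = _
  rw [Fintype.card_prod, Fintype.card_fun, ZMod.card, Fintype.card_fin]
  ring

theorem card_modC (k q u N : ℕ) (hq : 1 ≤ q) (hu : 1 ≤ u) (w : Fin k → (Fin (4 * u) → Fin q))
    (hw : ∀ v v', v ≠ v' → u ≤ hammingDist (w v) (w v')) :
    Fintype.card (modGadget k q u N hq hu w hw).C = 4 * q ^ 2 + 2 := by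
  show Fintype.card (Fin (4 * q ^ 2 + 2)) = _
  rw [Fintype.card_fin]

end Pool.Agent.Lib_helper16.TEP
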