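import Pool.Agent.Lib_helper16.TEP.Master
import Pool.Agent.Lib_helper16.TEP.GadgetMod

/-! The bound uniform in the height and in the alphabet. -/

namespace Pool.Agent.Lib_helper16.TEP

theorem size_mod (n k a u : ℕ) (hk : 1 ≤ k) (ha : 2 ≤ a) (hu : 1 ≤ u) (hku : k ≤ 2 ^ (a * u)) :
    ∃ B : NBP (Var k n) k (Fin k), B.Computes (value n) ∧ Thrifty B ∧ B.Unambiguous ∧
      B.size ≤ (md (2 ^ a) u ^ (4 * u + 1)) ^ 3 * k *
        (((4 * (2 ^ a) ^ 2 + 2) ^ 2) ^ n * 5 ^ n * k ^ 2) + k := by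
  obtain ⟨w, hw⟩ := exists_words ha hu hku
  obtain ⟨B, hB1, hB2, hB4, hB3⟩ := master (p := 1)
    (modGadget k (2 ^ a) u n Nat.one_le_two_pow hu w hw) le_rfl (fun _ v => v)
    (fun v v' h => h 0) hk ⟨(⟨0, Nat.succ_pos _⟩ : Fin (4 * (2 ^ a) ^ 2 + 2))⟩
    (fun v => v) (by simpa using hk)
  rw [card_modG, card_modC, Fintype.card_fin] at hB3
  exact ⟨B, hB1, hB2, hB4, hB3⟩

theorem pow_bound {x : ℝ} {e : ℝ} (hx0 : 0 ≤ x) (hx : x ≤ 2 ^ e) (N : ℕ) :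
    x ^ N ≤ (2 : ℝ) ^ (e * N) := by
  calc x ^ N ≤ ((2 : ℝ) ^ e) ^ N := pow_le_pow_left₀ hx0 hx N
    _ = (2 : ℝ) ^ (e * N) := by
        rw [← Real.rpow_natCast, ← Real.rpow_mul (by norm_num)]

theorem thrifty_uniform (n k : ℕ) (hk : 4 ≤ k) :
    ∃ B : NBP (Var k n) k (Fin k), B.Computes (value n) ∧ Thrifty B ∧ B.Unambiguous ∧
      (B.size : ℝ) ≤ (2 : ℝ) ^ (200 * (((n : ℝ) + 1) + Real.logb 2 k +
        √(((n : ℝ) + 1) * Real.logb 2 k * Real.logb 2 (Real.logb 2 k)))) := by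
  set L : ℝ := Real.logb 2 k with hLdef
  set lam : ℝ := Real.logb 2 L with hlamdef
  set h : ℝ := (n : ℝ) + 1 with hhdef
  have hk0 : (0 : ℝ) < k := by
    have : 0 < k := by omega
    exact_mod_cast this
  have hk4 : (4 : ℝ) ≤ k := by exact_mod_cast hk
  have hL2 : 2 ≤ L := by
    rw [hLdef, Real.le_logb_iff_rpow_le (by norm_num) hk0]
    norm_num
    exact hk
  have hlam1 : 1 ≤ lam := by
    rw [hlamdef, Real.le_logb_iff_rpow_le (by norm_num) (by linarith)]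
    norm_num
    exact hL2
  have hkL : (k : ℝ) = (2 : ℝ) ^ L := by
    rw [hLdef, Real.rpow_logb (by norm_num) (by norm_num) hk0]
  have hLlam : L = (2 : ℝ) ^ lam := by
    rw [hlamdef, Real.rpow_logb (by norm_num) (by norm_num) (by linarith)]
  have hlamL : lam ≤ L := by
    have h1 : Real.log L ≤ L - 1 := Real.log_le_sub_one_of_pos (by linarith)
    -- `2 ^ x ≥ 1 + x * log 2 ...`; use `x < 2 ^ x`
    have h2 : lam < (2 : ℝ) ^ lam := by
      have h3 : (⌊lam⌋₊ : ℝ) + 1 ≤ (2 : ℝ) ^ (⌊lam⌋₊ : ℝ) := by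
        rw [Real.rpow_natCast]
        have : ⌊lam⌋₊ + 1 ≤ 2 ^ ⌊lam⌋₊ := Nat.lt_two_pow_self
        exact_mod_cast this
      calc lam < ⌊lam⌋₊ + 1 := Nat.lt_floor_add_one lam
        _ ≤ (2 : ℝ) ^ (⌊lam⌋₊ : ℝ) := h3
        _ ≤ (2 : ℝ) ^ lam :=
            Real.rpow_le_rpow_of_exponent_le (by norm_num) (Nat.floor_le (by linarith))
    rw [← hLlam] at h2
    exact h2.le
  have hh1 : 1 ≤ h := by
    rw [hhdef]
    have : (0 : ℝ) ≤ n := Nat.cast_nonneg n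
    linarith
  have hLl : 0 ≤ L * lam := by nlinarith
  set ρ : ℝ := √(L * lam / h) with hρdef
  set S : ℝ := √(h * L * lam) with hSdef
  have hρ0 : 0 ≤ ρ := Real.sqrt_nonneg _
  have hS0 : 0 ≤ S := Real.sqrt_nonneg _
  have hρ2 : ρ ^ 2 = L * lam / h := Real.sq_sqrt (by positivity)
  have hS2 : S ^ 2 = h * L * lam := Real.sq_sqrt (by positivity)
  have hρ2' : h * ρ ^ 2 = L * lam := by
    rw [hρ2]
    field_simp
  have hhρ : h * ρ = S := by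
    rw [hSdef, hρdef]
    rw [show h * L * lam = h ^ 2 * (L * lam / h) by field_simp]
    rw [Real.sqrt_mul (by positivity), Real.sqrt_sq (by linarith)]
  have hρS : ρ ≤ S := by
    rw [← hhρ]
    nlinarith
  set b : ℕ := ⌈L⌉₊ with hbdef
  have hb1 : (L : ℝ) ≤ b := Nat.le_ceil L
  have hb2 : (b : ℝ) ≤ L + 1 := (Nat.ceil_lt_add_one (by linarith)).le
  have hkb : k ≤ 2 ^ b := by
    have : (k : ℝ) ≤ ((2 ^ b : ℕ) : ℝ) := by
      rw [hkL]
      push_cast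
      rw [← Real.rpow_natCast]
      exact Real.rpow_le_rpow_of_exponent_le (by norm_num) hb1
    exact_mod_cast this
  set a : ℕ := 2 + ⌈ρ⌉₊ with hadef
  have ha2 : 2 ≤ a := by omega
  have haR1 : ρ + 2 ≤ (a : ℝ) := by
    rw [hadef]
    push_cast
    have := Nat.le_ceil ρ
    linarith
  have haR2 : (a : ℝ) ≤ ρ + 3 := by
    rw [hadef]
    push_cast
    have := (Nat.ceil_lt_add_one hρ0).le
    linarith
  have ha0 : (0 : ℝ) < a := by linarith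
  set u : ℕ := b / a + 1 with hudef
  have hu1 : 1 ≤ u := Nat.le_add_left 1 _
  have hbau : b ≤ a * u := (Nat.lt_mul_div_succ b (by omega)).le
  have huR : (u : ℝ) ≤ (L + 1) / a + 1 := by
    rw [hudef]
    push_cast
    have h1 : ((b / a : ℕ) : ℝ) ≤ (b : ℝ) / a := Nat.cast_div_le
    have h2 : (b : ℝ) / a ≤ (L + 1) / a := by gcongr
    linarith
  have hu1R : (1 : ℝ) ≤ u := by exact_mod_cast hu1
  have hua : (u : ℝ) * a ≤ L + 1 + a := by
    have : (u : ℝ) * a ≤ ((L + 1) / a + 1) * a := by gcongr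
    have e : ((L + 1) / a + 1) * a = L + 1 + a := by field_simp
    linarith
  have hu2L : (u : ℝ) ≤ 2 * L := by
    have h1 : (L + 1) / (a : ℝ) ≤ (L + 1) / 2 := by
      apply div_le_div_of_nonneg_left (by linarith) (by norm_num)
      linarith
    linarith
  obtain ⟨B, hB1, hB2, hB4, hB3⟩ := size_mod n k a u (by omega) ha2 hu1
    (hkb.trans (Nat.pow_le_pow_right (by norm_num) hbau))
  refine ⟨B, hB1, hB2, hB4, ?_⟩
  -- estimates of the factors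
  have hq : (4 * ((2 : ℝ) ^ a) ^ 2 + 2) ≤ (2 : ℝ) ^ (2 * (a : ℝ) + 3) := by
    have e : (2 : ℝ) ^ (2 * (a : ℝ) + 3) = 8 * ((2 : ℝ) ^ a) ^ 2 := by
      rw [Real.rpow_add (by norm_num), mul_comm 2 (a : ℝ), Real.rpow_mul (by norm_num),
        Real.rpow_natCast]
      norm_num
      ring
    rw [e]
    have : (1 : ℝ) ≤ ((2 : ℝ) ^ a) ^ 2 := one_le_pow₀ (one_le_pow₀ (by norm_num))
    linarith
  have hmd : ((md (2 ^ a) u : ℕ) : ℝ) ≤ (2 : ℝ) ^ (lam + 2 * (a : ℝ) + 4) := by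
    unfold md
    push_cast
    have h1 : (u : ℝ) ≤ (2 : ℝ) ^ (lam + 1) := by
      rw [Real.rpow_add (by norm_num), ← hLlam, Real.rpow_one]
      linarith
    have h2 : 4 * ((2 : ℝ) ^ a) ^ 2 + 1 ≤ (2 : ℝ) ^ (2 * (a : ℝ) + 3) := by linarith
    calc (u : ℝ) * (4 * ((2 : ℝ) ^ a) ^ 2 + 1)
        ≤ (2 : ℝ) ^ (lam + 1) * (2 : ℝ) ^ (2 * (a : ℝ) + 3) := by gcongr
      _ = (2 : ℝ) ^ (lam + 2 * (a : ℝ) + 4) := by
          rw [← Real.rpow_add (by norm_num)]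
          congr 1
          ring
  have hf1 : (((md (2 ^ a) u : ℕ) : ℝ) ^ (4 * u + 1)) ^ 3 ≤
      (2 : ℝ) ^ ((lam + 2 * (a : ℝ) + 4) * (3 * (4 * u + 1))) := by
    rw [← pow_mul]
    refine (pow_bound (Nat.cast_nonneg _) hmd _).trans (le_of_eq ?_)
    congr 1
    push_cast
    ring
  have hf2 : ((4 * ((2 : ℝ) ^ a) ^ 2 + 2) ^ 2) ^ n ≤ (2 : ℝ) ^ ((2 * (a : ℝ) + 3) * (2 * n)) := by
    rw [← pow_mul]
    refine (pow_bound (by positivity) hq _).trans (le_of_eq ?_)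
    congr 1
    push_cast
    ring
  have hf3 : (5 : ℝ) ^ n ≤ (2 : ℝ) ^ (3 * (n : ℝ)) := by
    have : (5 : ℝ) ≤ (2 : ℝ) ^ (3 : ℝ) := by norm_num
    exact pow_bound (by norm_num) this n
  have hf4 : (k : ℝ) ^ 2 = (2 : ℝ) ^ (2 * L) := by
    rw [hkL, ← Real.rpow_natCast, ← Real.rpow_mul (by norm_num)]
    congr 1
    push_cast
    ring
  have hsize : (B.size : ℝ) ≤ (2 : ℝ) ^ ((lam + 2 * (a : ℝ) + 4) * (3 * (4 * u + 1)) + L +
      ((2 * (a : ℝ) + 3) * (2 * n) + 3 * n + 2 * L) + 1) := by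
    have h0 : (B.size : ℝ) ≤ (((md (2 ^ a) u : ℕ) : ℝ) ^ (4 * u + 1)) ^ 3 * k *
        (((4 * ((2 : ℝ) ^ a) ^ 2 + 2) ^ 2) ^ n * 5 ^ n * (k : ℝ) ^ 2) + k := by
      exact_mod_cast hB3
    have h1 : (((md (2 ^ a) u : ℕ) : ℝ) ^ (4 * u + 1)) ^ 3 * k *
        (((4 * ((2 : ℝ) ^ a) ^ 2 + 2) ^ 2) ^ n * 5 ^ n * (k : ℝ) ^ 2) ≤
        (2 : ℝ) ^ ((lam + 2 * (a : ℝ) + 4) * (3 * (4 * u + 1))) * (2 : ℝ) ^ L *
        ((2 : ℝ) ^ ((2 * (a : ℝ) + 3) * (2 * n)) * (2 : ℝ) ^ (3 * (n : ℝ)) *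
        (2 : ℝ) ^ (2 * L)) := by
      rw [hf4, ← hkL]
      gcongr
    have h2 : (2 : ℝ) ^ ((lam + 2 * (a : ℝ) + 4) * (3 * (4 * u + 1))) * (2 : ℝ) ^ L *
        ((2 : ℝ) ^ ((2 * (a : ℝ) + 3) * (2 * n)) * (2 : ℝ) ^ (3 * (n : ℝ)) *
        (2 : ℝ) ^ (2 * L)) = (2 : ℝ) ^ ((lam + 2 * (a : ℝ) + 4) * (3 * (4 * u + 1)) + L +
        ((2 * (a : ℝ) + 3) * (2 * n) + 3 * n + 2 * L)) := by
      rw [← Real.rpow_add (by norm_num), ← Real.rpow_add (by norm_num),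
        ← Real.rpow_add (by norm_num), ← Real.rpow_add (by norm_num)]
    rw [h2] at h1
    have h3 : (k : ℝ) ≤ (2 : ℝ) ^ ((lam + 2 * (a : ℝ) + 4) * (3 * (4 * u + 1)) + L +
        ((2 * (a : ℝ) + 3) * (2 * n) + 3 * n + 2 * L)) := by
      rw [hkL]
      apply Real.rpow_le_rpow_of_exponent_le (by norm_num)
      have : 0 ≤ (lam + 2 * (a : ℝ) + 4) * (3 * (4 * u + 1)) := by positivity
      have : 0 ≤ (2 * (a : ℝ) + 3) * (2 * n) + 3 * n + 2 * L := by positivity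
      linarith
    rw [Real.rpow_add (by norm_num) _ 1, Real.rpow_one]
    linarith
  refine hsize.trans (Real.rpow_le_rpow_of_exponent_le (by norm_num) ?_)
  -- the exponent
  have hn : (n : ℝ) ≤ h := by
    rw [hhdef]
    linarith
  have hn0 : (0 : ℝ) ≤ n := Nat.cast_nonneg n
  have hLla : L * lam ≤ S * a := by
    calc L * lam = h * ρ ^ 2 := hρ2'.symm
      _ = S * ρ := by rw [← hhρ]; ring
      _ ≤ S * a := by
          apply mul_le_mul_of_nonneg_left _ hS0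
          linarith
  -- `u * lam ≤ 1.5 S + lam`
  have hulam : (u : ℝ) * lam ≤ 3 / 2 * S + lam := by
    have h1 : (u : ℝ) * a * lam ≤ (L + 1 + a) * lam := by
      apply mul_le_mul_of_nonneg_right hua
      linarith
    have h2 : (L + 1) * lam ≤ 3 / 2 * (L * lam) := by nlinarith
    have h3 : (u : ℝ) * lam * a ≤ (3 / 2 * S + lam) * a := by nlinarith
    exact le_of_mul_le_mul_right h3 ha0
  have hE1 : (lam + 2 * (a : ℝ) + 4) * (3 * (4 * u + 1)) ≤ 143 * S + 165 * L := by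
    have h1 : 3 * (4 * (u : ℝ) + 1) ≤ 15 * u := by linarith
    have h2 : lam + 2 * (a : ℝ) + 4 ≤ 5 * lam + 2 * a := by linarith
    have h3 : (lam + 2 * (a : ℝ) + 4) * (3 * (4 * u + 1)) ≤ (5 * lam + 2 * a) * (15 * u) := by
      apply mul_le_mul h2 h1 (by positivity) (by positivity)
    have h4 : (5 * lam + 2 * a) * (15 * (u : ℝ)) = 75 * (u * lam) + 30 * (u * a) := by ring
    rw [h4] at h3
    have h5 : (u : ℝ) * a ≤ L + 4 + S := by linarith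
    linarith
  have hE2 : (2 * (a : ℝ) + 3) * (2 * n) ≤ 4 * S + 18 * h := by
    have h1 : 2 * (a : ℝ) + 3 ≤ 2 * ρ + 9 := by linarith
    calc (2 * (a : ℝ) + 3) * (2 * n) ≤ (2 * ρ + 9) * (2 * h) := by
          apply mul_le_mul h1 (by linarith) (by positivity) (by positivity)
      _ = 4 * (h * ρ) + 18 * h := by ring
      _ = 4 * S + 18 * h := by rw [hhρ]
  linarith

end Pool.Agent.Lib_helper16.TEP
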