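import Mathlib

/-!
# The tree evaluation problem and nondeterministic thrifty branching programs

Definitions of Cook, McKenzie, Wehr, Braverman and Santhanam,
*Pebbles and Branching Programs for Tree Evaluation* (2012).
-/

namespace Pool.Agent.Lib_helper16.TEP

/-- `Var k n`: the input variables of the tree evaluation problem on the full binary tree
with `n + 1` levels (height `n + 1`) over the value set `Fin k`.
For `n = 0` the tree is a single leaf, with one variable (the value of the leaf).
For `n + 1`: the `k ^ 2` entries `f(a, b)` of the table of the function at the root, and
the variables of the left and of the right subtree. -/
inductive Var (k : ℕ) : ℕ → Type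
  | leaf : Var k 0
  | root {n : ℕ} (a b : Fin k) : Var k (n + 1)
  | left {n : ℕ} (v : Var k n) : Var k (n + 1)
  | right {n : ℕ} (v : Var k n) : Var k (n + 1)

/-- The value of the root. -/
def value {k : ℕ} : (n : ℕ) → (Var k n → Fin k) → Fin k
  | 0, I => I Var.leaf
  | n + 1, I =>
      I (Var.root (value n fun v => I (Var.left v)) (value n fun v => I (Var.right v)))

/-- `Right I x`: reading the variable `x` on input `I` is allowed by the thrifty condition:
if `x` is the entry `(a, b)` of the table of an internal node, then `a` and `b` are the
correct values of the two children of that node on input `I`. -/
def Right {k : ℕ} : (n : ℕ) → (Var k n → Fin k) → Var k n → Prop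
  | 0, _, _ => True
  | n + 1, I, Var.root a b =>
      a = value n (fun v => I (Var.left v)) ∧ b = value n (fun v => I (Var.right v))
  | n + 1, I, Var.left v => Right n (fun v => I (Var.left v)) v
  | n + 1, I, Var.right v => Right n (fun v => I (Var.right v)) v

/-- A nondeterministic `k`-way branching program over the variables `X` with outputs in `R`.
Every state is labelled by a variable or is the final state of an output, and each output has
exactly one final state. `edge s c t` means that there is an edge labelled `c` from `s` to `t`. -/
structure NBP (X : Type) (k : ℕ) (R : Type) where
  State : Type
  [fin : Fintype State]
  start : State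
  label : State → X ⊕ R
  final_unique : ∀ r : R, ∃! s, label s = Sum.inr r
  edge : State → Fin k → State → Prop

namespace NBP

variable {X R : Type} {k : ℕ}

/-- One step of a computation on input `I`: an edge activated by `I`. -/
def Step (B : NBP X k R) (I : X → Fin k) (s t : B.State) : Prop :=
  ∃ x, B.label s = Sum.inl x ∧ B.edge s (I x) t

/-- `c` is (the list of the states of) a computation on input `I` that starts in the start
state and ends in the final state of the output `r`. -/
def Computation (B : NBP X k R) (I : X → Fin k) (c : List B.State) (r : R) : Prop :=
  c.head? = some B.start ∧ c.IsChain (B.Step I) ∧ ∃ s, c.getLast? = some s ∧ B.label s = Sum.inr r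

/-- `B` computes `g`: on every input some computation ends in a final state, and every
computation that ends in a final state ends in the one of the correct output. -/
def Computes (B : NBP X k R) (g : (X → Fin k) → R) : Prop :=
  ∀ I, (∃ c, B.Computation I c (g I)) ∧ ∀ c r, B.Computation I c r → r = g I

/-- `B` is unambiguous: on every input at most one computation from the start state ends in a
final state. -/
def Unambiguous (B : NBP X k R) : Prop :=
  ∀ I c r c' r', B.Computation I c r → B.Computation I c' r' → c = c'

/-- The number of states. -/
def size (B : NBP X k R) : ℕ := @Fintype.card B.State B.fin

end NBP

/-- A branching program for the tree evaluation problem is thrifty if in every computation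
that ends in a final state, every state that queries an entry of the table of an internal node
queries it at the correct values of the two children. -/
def Thrifty {k n : ℕ} {R : Type} (B : NBP (Var k n) k R) : Prop :=
  ∀ I c r, B.Computation I c r → ∀ s ∈ c, ∀ x, B.label s = Sum.inl x → Right n I x

end Pool.Agent.Lib_helper16.TEP
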