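import Pool.Agent.Lib_helper16.TEP.Proc

/-! The main recursion. -/

namespace Pool.Agent.Lib_helper16.TEP

open Prog

set_option linter.unusedSectionVars false

variable {X : Type} {k p N : ℕ} {V₀ κ : Type} [Fintype κ] [DecidableEq κ]
  (Γ : Gadget V₀ N) (a : κ → Bool × Fin p → κ) (part : Fin p → Fin k → V₀)

theorem lvl_mono {l : ℕ} {H : κ → Γ.G} (h : ∀ c, Γ.Lvl l (H c)) : ∀ c, Γ.Lvl (l + 1) (H c) :=
  fun c => Γ.mono _ _ (h c)

theorem proc (hne : ∀ i b, a i b ≠ i) (hinj : ∀ i, Function.Injective (a i))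
    (hpart : ∀ v v' : Fin k, (∀ r, part r v = part r v') → v = v')
    (hcc : 1 ≤ Fintype.card (Slots Γ p)) (n : ℕ) :
    ∀ (l : ℕ), l + n ≤ N → ∀ (emb : Var k n → X) (i : κ) (E E' : Type) [Fintype E] [Fintype E']
      (op : (κ → Γ.G) × E → Fin k → (κ → Γ.G) × E' → Prop)
      (_ : ∀ d v d', op d v d' → ∀ c, c ≠ i → d'.1 c = d.1 c)
      (_ : ∀ d v d₁ d₂, op d v d₁ → op d v d₂ → d₁ = d₂) (M : ℕ)
      (_ : Fintype.card E ≤ M) (_ : Fintype.card E' ≤ M),
      ∃ P : Prog X (Fin k) ((κ → Γ.G) × E) ((κ → Γ.G) × E'),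
        P.size ≤ Fintype.card (κ → Γ.G) * M * sig (Fintype.card (Slots Γ p)) p k n ∧
        Good Γ P emb l op := by
  induction n with
  | zero =>
    intro l hl emb i E E' _ _ op frame hop M hE hE'
    refine ⟨layer (G := Unit) (fun _ => emb Var.leaf) (fun d _ v d' => op d v d'), ?_, ?_, ?_, ?_,
      ?_⟩
    · rw [size_layer, Fintype.card_prod, Fintype.card_unit, mul_one, sig, mul_one]
      exact Nat.mul_le_mul_left _ hE
    · intro d
      refine ⟨(d, ()), ?_⟩
      rintro ⟨d', u⟩
      constructor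
      · intro h
        have h' : d' = d := h
        rw [h']
      · intro h
        have h' : d' = d := congrArg Prod.fst h
        exact h'
    · intro I d ss d' ss' d'' h h'
      rw [run_layer] at h h'
      obtain ⟨g, rfl, h⟩ := h
      obtain ⟨g', rfl, h'⟩ := h'
      exact ⟨rfl, hop _ _ _ _ h h'⟩
    · intro I d ss d' h
      rw [run_layer] at h
      obtain ⟨_, rfl, h⟩ := h
      refine ⟨h, ?_⟩
      intro x _
      exact ⟨Var.leaf, rfl, trivial⟩
    · intro I d d' _ _ h
      exact ⟨_, run_layer.2 ⟨(), rfl, h⟩⟩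
  | succ n ih =>
    intro l hl emb i E E' _ _ op frame hop M hE hE'
    have hl' : (l + 1) + n ≤ N := by omega
    set cc := Fintype.card (Slots Γ p) with hccdef
    have hM0 : M ≤ M * cc := Nat.le_mul_of_pos_right _ hcc
    have hM : Fintype.card (E × Slots Γ p) ≤ M * cc := by
      rw [Fintype.card_prod]
      exact Nat.mul_le_mul_right _ hE
    have hM' : Fintype.card (E' × Slots Γ p) ≤ M * cc := by
      rw [Fintype.card_prod]
      exact Nat.mul_le_mul_right _ hE'
    obtain ⟨P1, s1, g1⟩ := ih (l + 1) hl' (child emb false) i E (E × Slots Γ p)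
      (readL Γ a part i E) (by
        rintro d v d' ⟨h, -⟩ c _
        rw [h]) (readL_fun Γ a part i E) (M * cc) (hE.trans hM0) hM
    obtain ⟨P2, s2, g2⟩ := ih (l + 1) hl' (child emb true) i (E × Slots Γ p) (E × Slots Γ p)
      (readR Γ a part i E) (by
        rintro d v d' ⟨h, -⟩ c _
        rw [h]) (readR_fun Γ a part i E) (M * cc) hM hM
    have hQ : ∀ b : Bool × Fin p, ∃ Q : Prog X (Fin k) ((κ → Γ.G) × (E' × Slots Γ p))
        ((κ → Γ.G) × (E' × Slots Γ p)),
        Q.size ≤ Fintype.card (κ → Γ.G) * (M * cc) * sig cc p k n ∧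
        Good Γ Q (child emb b.1) (l + 1) (check Γ a part i E' b) := by
      intro b
      exact ih (l + 1) hl' (child emb b.1) (a i b) (E' × Slots Γ p) (E' × Slots Γ p)
        (check Γ a part i E' b) (by
          rintro d v d' ⟨-, -, -, h⟩ c hc
          exact h c hc) (check_fun Γ a part i E' b) (M * cc) hM' hM'
    choose Q sQ gQ using hQ
    let mid' : Prog X (Fin k) ((κ → Γ.G) × (E × Slots Γ p)) ((κ → Γ.G) × (E' × Slots Γ p)) :=
      layer (G := Fin k × Fin k) (fun g => emb (Var.root g.1 g.2)) (mid Γ a part i E E' op)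
    let L : List (Bool × Fin p) := (Finset.univ : Finset (Bool × Fin p)).toList
    have hL : L.Nodup := Finset.nodup_toList _
    have hLmem : ∀ b, b ∈ L := fun b => by simp [L]
    have hLlen : L.length = 2 * p := by
      simp [L, Fintype.card_prod]
    let P0 := comp (comp P1 P2) mid'
    -- the guess is forced
    have key : ∀ I d s d3 d4, Run P0 I d s d3 → RunList I (L.map Q) d3 d4 →
        op d (value (n + 1) fun v => I (emb v)) (d4.1, d4.2.1) ∧
        ∃ sa sb d1 d2, s = jn (comp P1 P2) mid' (jn P1 P2 sa sb)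
            [(d2, (uval I emb false, uval I emb true))] ∧
          Run P1 I d sa d1 ∧ Run P2 I d1 sb d2 ∧
          mid Γ a part i E E' op d2 (uval I emb false, uval I emb true)
            (I (emb (Var.root (uval I emb false) (uval I emb true)))) d3 := by
      intro I d s d3 d4 h hlist
      obtain ⟨qc, qd, d2, rfl, h, hmid⟩ := run_comp_cases h
      obtain ⟨qe, qf, d1, rfl, hr1, hr2⟩ := run_comp_cases h
      obtain ⟨⟨a1, a2, a3⟩, -⟩ := g1.2.2.1 _ _ _ _ hr1
      obtain ⟨⟨b1, b2, b3⟩, -⟩ := g2.2.2.1 _ _ _ _ hr2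
      rw [run_layer] at hmid
      obtain ⟨g, rfl, hmid⟩ := hmid
      have hmid' := hmid
      obtain ⟨dd, m1, m2, m3, m4, m5⟩ := hmid
      obtain ⟨c1, c2, c3⟩ := runList_sound Γ a part hinj i E' emb (l + 1) I Q gQ L hL
        d3 d4 hlist
      have hd2 : (d2.1, d2.2.1) = d := by
        rw [b1, a1, b2, a2]
      rw [hd2] at m1
      -- colours
      have hcol : ∀ b : Bool × Fin p, d2.2.2 b =
          Γ.color (part b.2 (uval I emb b.1)) (d.1 (a i b)) := by
        rintro ⟨b, r⟩
        cases b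
        · rw [(b3 r).1]
          exact a3 (false, r)
        · have := (b3 r).2
          rw [a1] at this
          exact this
      have hsound : ∀ b : Bool × Fin p, part b.2 (gsel g b.1) = part b.2 (uval I emb b.1) ∧
          d4.1 (a i b) = dd.1 (a i b) := by
        intro b
        obtain ⟨e1, e2⟩ := c2 b (hLmem b)
        refine Γ.sound _ _ _ _ _ (m4 b) e1 ?_
        rw [e2, m3, hcol b, frame _ _ _ m1 _ (hne i b)]
      have hy : g.1 = uval I emb false := hpart _ _ fun r => (hsound (false, r)).1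
      have hz : g.2 = uval I emb true := hpart _ _ fun r => (hsound (true, r)).1
      have hg : g = (uval I emb false, uval I emb true) := by
        rw [← hy, ← hz]
      have hd4 : d4.1 = dd.1 := by
        funext c
        by_cases hc : ∃ b, c = a i b
        · obtain ⟨b, rfl⟩ := hc
          exact (hsound b).2
        · push Not at hc
          rw [c3 c (fun b _ => hc b), m5 c hc]
      have hdd : dd = (d4.1, d4.2.1) := by
        rw [hd4, c1, m2]
      rw [hdd] at m1
      subst hg
      exact ⟨m1, qe, qf, d1, d2, rfl, hr1, hr2, hmid'⟩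
    refine ⟨(chain P0 (L.map Q)).mapOut (fun d => (d.1, d.2.1)), ?_, ?_, ?_, ?_, ?_⟩
    · rw [size_mapOut]
      have h1 := size_chain (Fintype.card (κ → Γ.G) * (M * cc) * sig cc p k n) (L.map Q) P0
        (by
          intro R hR
          obtain ⟨b, _, rfl⟩ := List.mem_map.1 hR
          exact sQ b)
      have h2 : P0.size ≤ Fintype.card (κ → Γ.G) * (M * cc) * sig cc p k n +
          Fintype.card (κ → Γ.G) * (M * cc) * sig cc p k n +
          Fintype.card (κ → Γ.G) * (M * cc) * k ^ 2 := by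
        have h3 : mid'.size ≤ Fintype.card (κ → Γ.G) * (M * cc) * k ^ 2 := by
          have hg : Fintype.card (Fin k × Fin k) = k ^ 2 := by
            rw [Fintype.card_prod, Fintype.card_fin]
            ring
          rw [size_layer, hg, Fintype.card_prod]
          exact Nat.mul_le_mul_right _ (Nat.mul_le_mul_left _ hM)
        rw [size_comp, size_comp]
        omega
      rw [List.length_map, hLlen] at h1
      refine h1.trans ((Nat.add_le_add_right h2 _).trans (le_of_eq ?_))
      rw [sig]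
      ring
    · exact det_mapOut _ (det_chain _ _ (det_comp _ (det_comp _ g1.1)))
    · intro I d ss d' ss' d'' h h'
      rw [run_mapOut] at h h'
      obtain ⟨d4, h, rfl⟩ := h
      obtain ⟨d5, h', rfl⟩ := h'
      have := chain_uniq (L.map Q) P0 d ss ss' d4 d5 (by
        intro R hR
        obtain ⟨b, _, rfl⟩ := List.mem_map.1 hR
        exact (gQ b).2.1) h h' (by
        intro s e s' e' r1 r2 l1 l2
        obtain ⟨-, sa, sb, d1, d2, rfl, ra, rb, rm⟩ := key I d s e d4 r1 l1
        obtain ⟨-, sa', sb', d1', d2', rfl, ra', rb', rm'⟩ := key I d s' e' d5 r2 l2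
        obtain ⟨rfl, rfl⟩ := g1.2.1 _ _ _ _ _ _ ra ra'
        obtain ⟨rfl, rfl⟩ := g2.2.1 _ _ _ _ _ _ rb rb'
        exact ⟨rfl, mid_fun Γ a part i E E' op hop _ _ _ _ _ rm rm'⟩)
      obtain ⟨rfl, rfl⟩ := this
      exact ⟨rfl, rfl⟩
    · intro I d ss d' h
      rw [run_mapOut] at h
      obtain ⟨d4, h, rfl⟩ := h
      obtain ⟨s, e, h1, h2, h3⟩ := run_chain_cases
        (fun x => ∃ v, x = emb v ∧ Right (n + 1) (fun v => I (emb v)) v) (L.map Q) P0 d ss d4
        (by
          intro R hR e s e' hr x hx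
          obtain ⟨b, _, rfl⟩ := List.mem_map.1 hR
          obtain ⟨v, hv, hv'⟩ := ((gQ b).2.2.1 _ _ _ _ hr).2 x hx
          obtain ⟨b1, b2⟩ := b
          cases b1
          · exact ⟨Var.left v, hv, hv'⟩
          · exact ⟨Var.right v, hv, hv'⟩) h
      obtain ⟨k1, sa, sb, d1, d2, rfl, ra, rb, rm⟩ := key I d s e d4 h1 h2
      refine ⟨k1, h3 ?_⟩
      refine mem_jn (T := fun x => ∃ v, x = emb v ∧ Right (n + 1) (fun v => I (emb v)) v)
        (mem_jn (T := fun x => ∃ v, x = emb v ∧ Right (n + 1) (fun v => I (emb v)) v) ?_ ?_) ?_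
      · intro x hx
        obtain ⟨v, hv, hv'⟩ := (g1.2.2.1 _ _ _ _ ra).2 x hx
        exact ⟨Var.left v, hv, hv'⟩
      · intro x hx
        obtain ⟨v, hv, hv'⟩ := (g2.2.2.1 _ _ _ _ rb).2 x hx
        exact ⟨Var.right v, hv, hv'⟩
      · intro x hx
        rw [List.mem_singleton] at hx
        subst hx
        exact ⟨Var.root _ _, rfl, rfl, rfl⟩
    · intro I d d' hd hd' hopd
      set u : Bool → Fin k := fun b => uval I emb b with hu
      let sl0 : Slots Γ p := fun b => Γ.color (part b.2 (u false)) (d.1 (a i b))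
      let sl : Slots Γ p := fun b => Γ.color (part b.2 (u b.1)) (d.1 (a i b))
      have hl1 : l < N := by omega
      obtain ⟨qs1, r1⟩ := g1.2.2.2 I d (d.1, (d.2, sl0)) (lvl_mono Γ hd) (lvl_mono Γ hd)
        ⟨rfl, rfl, fun r => rfl⟩
      obtain ⟨qs2, r2⟩ := g2.2.2.2 I (d.1, (d.2, sl0)) (d.1, (d.2, sl)) (lvl_mono Γ hd)
        (lvl_mono Γ hd) ⟨rfl, rfl, fun r => ⟨rfl, rfl⟩⟩
      have hload : ∀ b : Bool × Fin p, ∃ h1, Γ.load (part b.2 (u b.1)) (d'.1 (a i b)) = some h1 ∧
          Γ.Lvl (l + 1) h1 ∧ Γ.unload (part b.2 (u b.1)) h1 = some (d'.1 (a i b)) :=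
        fun b => Γ.complete l hl1 _ _ (hd' _)
      choose h1 hh1 hh2 hh3 using hload
      classical
      let H : κ → Γ.G := fun c => if h : ∃ b, c = a i b then h1 h.choose else d'.1 c
      have hHa : ∀ b, H (a i b) = h1 b := by
        intro b
        have hex : ∃ b', a i b = a i b' := ⟨b, rfl⟩
        have : hex.choose = b := (hinj i hex.choose_spec).symm
        show (if h : ∃ b', a i b = a i b' then h1 h.choose else d'.1 (a i b)) = h1 b
        rw [dif_pos hex, this]
      have hHn : ∀ c, (∀ b, c ≠ a i b) → H c = d'.1 c := by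
        intro c hc
        have : ¬ ∃ b, c = a i b := by
          push Not
          exact hc
        show (if h : ∃ b', c = a i b' then h1 h.choose else d'.1 c) = d'.1 c
        rw [dif_neg this]
      have hHl : ∀ c, Γ.Lvl (l + 1) (H c) := by
        intro c
        by_cases hc : ∃ b, c = a i b
        · obtain ⟨b, rfl⟩ := hc
          rw [hHa]
          exact hh2 b
        · push Not at hc
          rw [hHn c hc]
          exact Γ.mono _ _ (hd' c)
      have r3 : Run mid' I (d.1, (d.2, sl)) [((d.1, (d.2, sl)), (u false, u true))]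
          (H, (d'.2, sl)) := by
        rw [run_layer]
        refine ⟨(u false, u true), rfl, d', ?_, rfl, rfl, ?_, ?_⟩
        · exact hopd
        · rintro ⟨b, r⟩
          show Γ.load (part r (gsel (u false, u true) b)) _ = some (H (a i (b, r)))
          rw [hHa]
          have : gsel (u false, u true) b = u b := by cases b <;> rfl
          rw [this]
          exact hh1 (b, r)
        · intro c hc
          exact hHn c hc
      have hsl : ∀ b : Bool × Fin p,
          Γ.color (part b.2 (uval I emb b.1)) (d'.1 (a i b)) = sl b := by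
        intro b
        rw [frame _ _ _ hopd _ (hne i b)]
      have r4 := runList_complete Γ a part hinj i E' emb (l + 1) I Q gQ d'.1
        (lvl_mono Γ hd') d'.2 sl hsl L hL H hHl
        (fun b _ => by
          rw [hHa]
          exact hh3 b)
        (fun c hc => hHn c (fun b => hc b (hLmem b)))
      obtain ⟨ss, r5⟩ := run_chain (L.map Q) P0 d _ _ _ (run_comp (run_comp r1 r2) r3) r4
      exact ⟨ss, run_mapOut.2 ⟨_, r5, rfl⟩⟩

theorem sig_le (cc p k : ℕ) (hcc : 1 ≤ cc) (hk : 1 ≤ k) (n : ℕ) :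
    sig cc p k n ≤ cc ^ n * (2 * p + 3) ^ n * k ^ 2 := by
  induction n with
  | zero =>
    simp only [sig, pow_zero, one_mul]
    exact Nat.one_le_pow _ _ hk
  | succ n ih =>
    have h1 : k ^ 2 ≤ cc ^ n * (2 * p + 3) ^ n * k ^ 2 := by
      have : 1 ≤ cc ^ n * (2 * p + 3) ^ n :=
        Nat.mul_pos (Nat.pow_pos hcc) (Nat.pow_pos (by omega))
      exact Nat.le_mul_of_pos_left _ this
    calc sig cc p k (n + 1) = cc * ((2 * p + 2) * sig cc p k n + k ^ 2) := rfl
      _ ≤ cc * ((2 * p + 2) * (cc ^ n * (2 * p + 3) ^ n * k ^ 2) +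
          cc ^ n * (2 * p + 3) ^ n * k ^ 2) := by gcongr
      _ = cc ^ (n + 1) * (2 * p + 3) ^ (n + 1) * k ^ 2 := by ring

end Pool.Agent.Lib_helper16.TEP
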