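import Pool.Agent.Lib_helper16.TEP.Main

/-! From programs to branching programs, and the master theorem. -/

namespace Pool.Agent.Lib_helper16.TEP

open Prog

section

variable {X D S R : Type} {k : ℕ} [Fintype R]

/-- labels of the states -/
def finLabel (P : Prog X (Fin k) D (S × R)) : P.Q ⊕ R → X ⊕ R := Sum.map P.lab id

/-- edges -/
def finEdge (P : Prog X (Fin k) D (S × R)) (s : P.Q ⊕ R) (v : Fin k) (t : P.Q ⊕ R) : Prop :=
  (∃ a b, s = Sum.inl a ∧ t = Sum.inl b ∧ P.step a v b) ∨
    (∃ a d', s = Sum.inl a ∧ t = Sum.inr d'.2 ∧ P.leave a v d')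

/-- steps -/
def finStep (P : Prog X (Fin k) D (S × R)) (I : X → Fin k) (s t : P.Q ⊕ R) : Prop :=
  ∃ x, finLabel P s = Sum.inl x ∧ finEdge P s (I x) t

/-- the branching program of a program with a unique entry state -/
def mkNBP (P : Prog X (Fin k) D (S × R)) (q0 : P.Q) : NBP X k R where
  State := P.Q ⊕ R
  start := Sum.inl q0
  label := finLabel P
  final_unique := by
    intro r
    refine ⟨Sum.inr r, rfl, ?_⟩
    rintro (q | r') h
    · cases h
    · have : r' = r := Sum.inr.inj h
      rw [this]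
  edge := finEdge P

theorem size_mkNBP (P : Prog X (Fin k) D (S × R)) (q0 : P.Q) :
    (mkNBP P q0).size = P.size + Fintype.card R := by
  show @Fintype.card (P.Q ⊕ R) _ = _
  exact Fintype.card_sum

theorem mkNBP_path (P : Prog X (Fin k) D (S × R)) (I : X → Fin k) (r : R) :
    ∀ (c : List (P.Q ⊕ R)) (q : P.Q), c.head? = some (Sum.inl q) →
      c.IsChain (finStep P I) →
      (∃ s, c.getLast? = some s ∧ finLabel P s = Sum.inr r) →
      ∃ ss d', Path P I q ss d' ∧ d'.2 = r ∧ c = ss.map Sum.inl ++ [Sum.inr r] := by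
  intro c
  induction c with
  | nil => intro q h; simp at h
  | cons s c ih =>
    intro q hh hc hl
    have hs : s = Sum.inl q := by simpa using hh
    subst hs
    cases c with
    | nil =>
      obtain ⟨s, hs, hs'⟩ := hl
      have : s = Sum.inl q := by simpa using hs.symm
      subst this
      cases hs'
    | cons t c =>
      rw [List.isChain_cons_cons] at hc
      obtain ⟨⟨x, hx, he⟩, hc⟩ := hc
      have hx' : P.lab q = x := by
        have : finLabel P (Sum.inl q) = Sum.inl (P.lab q) := rfl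
        rw [this] at hx
        exact Sum.inl.inj hx
      subst hx'
      have hl' : ∃ s, (t :: c).getLast? = some s ∧ finLabel P s = Sum.inr r := by
        simpa [List.getLast?_cons_cons] using hl
      rcases he with ⟨a, b, ha, hb, hstep⟩ | ⟨a, d', ha, hb, hleave⟩
      · cases ha
        subst hb
        obtain ⟨ss, d', h1, h2, h3⟩ := ih b rfl hc hl'
        refine ⟨q :: ss, d', Path.cons hstep h1, h2, ?_⟩
        rw [List.map_cons, List.cons_append, ← h3]
      · cases ha
        subst hb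
        -- the next state is final, so the list ends there
        cases c with
        | nil =>
          obtain ⟨s, hs, hs'⟩ := hl'
          have hs2 : s = Sum.inr d'.2 := by simpa using hs.symm
          subst hs2
          have hr : d'.2 = r := Sum.inr.inj hs'
          refine ⟨[q], d', Path.last hleave, hr, ?_⟩
          rw [hr]
          rfl
        | cons t' c =>
          exfalso
          rw [List.isChain_cons_cons] at hc
          obtain ⟨⟨x, hx, -⟩, -⟩ := hc
          cases hx

theorem mkNBP_of_path (P : Prog X (Fin k) D (S × R)) (I : X → Fin k) {q : P.Q}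
    {ss : List P.Q} {d' : S × R} (h : Path P I q ss d') :
    ∃ c : List (P.Q ⊕ R), c.head? = some (Sum.inl q) ∧ c.IsChain (finStep P I) ∧
      ∃ s, c.getLast? = some s ∧ finLabel P s = Sum.inr d'.2 := by
  induction h with
  | @last q d' h =>
    refine ⟨[Sum.inl q, Sum.inr d'.2], rfl, ?_, Sum.inr d'.2, by simp, rfl⟩
    rw [List.isChain_cons_cons]
    exact ⟨⟨P.lab q, rfl, Or.inr ⟨q, d', rfl, rfl, h⟩⟩, List.isChain_singleton _⟩
  | @cons q q' ss d' h _ ih =>
    obtain ⟨c, h1, h2, s, h3, h4⟩ := ih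
    cases c with
    | nil => simp at h1
    | cons t c =>
      have ht : t = Sum.inl q' := by simpa using h1
      subst ht
      refine ⟨Sum.inl q :: Sum.inl q' :: c, rfl, ?_, s, ?_, h4⟩
      · rw [List.isChain_cons_cons]
        exact ⟨⟨P.lab q, rfl, Or.inl ⟨q, q', rfl, rfl, h⟩⟩, h2⟩
      · rw [List.getLast?_cons_cons]
        exact h3

end

/-- the assignment of components -/
noncomputable def assign (p : ℕ) (i : Fin (2 * p + 1)) (b : Bool × Fin p) : Fin (2 * p + 1) :=
  i.succAbove (Fin.cast (by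
    rw [Fintype.card_prod, Fintype.card_bool, Fintype.card_fin])
    (Fintype.equivFin (Bool × Fin p) b))

theorem assign_ne (p : ℕ) (i : Fin (2 * p + 1)) (b : Bool × Fin p) : assign p i b ≠ i :=
  Fin.succAbove_ne _ _

theorem assign_inj (p : ℕ) (i : Fin (2 * p + 1)) : Function.Injective (assign p i) := by
  intro b b' h
  have h1 := Fin.succAbove_right_injective h
  have h2 := Fin.cast_injective _ h1
  exact (Fintype.equivFin _).injective h2

/-- **Master theorem.** -/
theorem master {k p n N : ℕ} {V₀ R : Type} [Fintype R] (Γ : Gadget V₀ N) (hN : n ≤ N)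
    (part : Fin p → Fin k → V₀) (hpart : ∀ v v' : Fin k, (∀ r, part r v = part r v') → v = v')
    (hk : 1 ≤ k) (hC : Nonempty Γ.C) (out : Fin k → R) (hR : 1 ≤ Fintype.card R) :
    ∃ B : NBP (Var k n) k R, B.Computes (fun I => out (value n I)) ∧ Thrifty B ∧ B.Unambiguous ∧
      B.size ≤ Fintype.card Γ.G ^ (2 * p + 1) * Fintype.card R *
        ((Fintype.card Γ.C ^ (2 * p)) ^ n * (2 * p + 3) ^ n * k ^ 2) + Fintype.card R := by
  have hslots : Fintype.card (Slots Γ p) = Fintype.card Γ.C ^ (2 * p) := by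
    rw [Fintype.card_fun, Fintype.card_prod, Fintype.card_bool, Fintype.card_fin]
  have hCpos : 1 ≤ Fintype.card Γ.C := Fintype.card_pos
  have hcc : 1 ≤ Fintype.card (Slots Γ p) := by
    rw [hslots]
    exact Nat.pow_pos hCpos
  obtain ⟨P, hsize, hdet, huniq, hsound, hcomplete⟩ := proc (X := Var k n) Γ (assign p) part
    (assign_ne p) (assign_inj p) hpart hcc n 0 (by omega) id 0 Unit R
    (fun d v d' => d'.1 = d.1 ∧ d'.2 = out v) (by
      rintro d v d' ⟨h, -⟩ c _
      rw [h]) (by
      rintro d v ⟨H₁, e₁⟩ ⟨H₂, e₂⟩ ⟨h1, h2⟩ ⟨h3, h4⟩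
      exact Prod.ext (h1.trans h3.symm) (h2.trans h4.symm))
    (Fintype.card R) (by simpa using hR) le_rfl
  let d0 : (Fin (2 * p + 1) → Γ.G) × Unit := (fun _ => Γ.base, ())
  obtain ⟨q0, hq0⟩ := hdet d0
  have henter : P.enter d0 q0 := (hq0 q0).2 rfl
  refine ⟨mkNBP P q0, ?_, ?_, ?_, ?_⟩
  · intro I
    constructor
    · obtain ⟨ss, q, he, hp⟩ := hcomplete I d0 (d0.1, out (value n I))
        (fun c => Γ.base_lvl) (fun c => Γ.base_lvl) ⟨rfl, rfl⟩
      rw [(hq0 q).1 he] at hp
      exact mkNBP_of_path P I hp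
    · rintro c r ⟨h1, h2, h3⟩
      obtain ⟨ss, d', hp, hr, -⟩ := mkNBP_path P I r c q0 h1 h2 h3
      rw [← hr]
      exact (hsound I d0 ss d' ⟨q0, henter, hp⟩).1.2
  · rintro I c r ⟨h1, h2, h3⟩ s hs x hx
    obtain ⟨ss, d', hp, -, rfl⟩ := mkNBP_path P I r c q0 h1 h2 h3
    rcases List.mem_append.1 hs with hs | hs
    · obtain ⟨q, hq, rfl⟩ := List.mem_map.1 hs
      obtain ⟨v, hv, hright⟩ := (hsound I d0 ss d' ⟨q0, henter, hp⟩).2 q hq
      have hx' : P.lab q = x := Sum.inl.inj hx
      rw [← hx', hv]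
      exact hright
    · have hs' : s = Sum.inr r := List.mem_singleton.1 hs
      subst hs'
      cases hx
  · rintro I c r c' r' ⟨h1, h2, h3⟩ ⟨h1', h2', h3'⟩
    obtain ⟨ss, d', hp, rfl, rfl⟩ := mkNBP_path P I r c q0 h1 h2 h3
    obtain ⟨ss', d'', hp', rfl, rfl⟩ := mkNBP_path P I r' c' q0 h1' h2' h3'
    obtain ⟨rfl, rfl⟩ := huniq I d0 ss d' ss' d'' ⟨q0, henter, hp⟩ ⟨q0, henter, hp'⟩
    rfl
  · rw [size_mkNBP]
    refine Nat.add_le_add_right (hsize.trans ?_) _
    rw [Fintype.card_fun, Fintype.card_fin]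
    refine Nat.mul_le_mul_left _ ?_
    rw [hslots]
    exact sig_le _ p k (Nat.pow_pos hCpos) hk n

end Pool.Agent.Lib_helper16.TEP
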