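import Pool.Agent.Lib_helper16.TEP.Prog

/-! The recursive nondeterministic thrifty evaluation procedure. -/

namespace Pool.Agent.Lib_helper16.TEP

open Prog

/-- A Ruzsa-Szemeredi type gadget: values of `V₀` can be loaded on top of arbitrary garbage
`h : G`; the colour of the garbage before and after reveals whether the value that is unloaded
is the value that was loaded. -/
structure Gadget (V₀ : Type) (N : ℕ) where
  G : Type
  C : Type
  [fG : Fintype G]
  [fC : Fintype C]
  load : V₀ → G → Option G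
  unload : V₀ → G → Option G
  color : V₀ → G → C
  Lvl : ℕ → G → Prop
  base : G
  base_lvl : Lvl 0 base
  mono : ∀ j g, Lvl j g → Lvl (j + 1) g
  sound : ∀ v v' h h1 h2, load v' h = some h1 → unload v h1 = some h2 →
    color v h2 = color v h → v' = v ∧ h2 = h
  complete : ∀ j, j < N → ∀ v h, Lvl j h →
    ∃ h1, load v h = some h1 ∧ Lvl (j + 1) h1 ∧ unload v h1 = some h

attribute [instance] Gadget.fG Gadget.fC

namespace Prog

variable {X V D D' : Type}

/-- compose with a list of programs -/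
def chain (P : Prog X V D D') : List (Prog X V D' D') → Prog X V D D'
  | [] => P
  | Q :: L => chain (comp P Q) L

/-- run a list of programs -/
def RunList (I : X → V) : List (Prog X V D' D') → D' → D' → Prop
  | [], d, d' => d = d'
  | Q :: L, d, d' => ∃ ss d₁, Run Q I d ss d₁ ∧ RunList I L d₁ d'

theorem run_chain {I : X → V} : ∀ (L : List (Prog X V D' D')) (P : Prog X V D D') (d : D)
    (ss : List P.Q) (e d' : D'), Run P I d ss e → RunList I L e d' →
      ∃ ss', Run (chain P L) I d ss' d' := by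
  intro L
  induction L with
  | nil =>
    intro P d ss e d' h h'
    cases h'
    exact ⟨ss, h⟩
  | cons Q L ih =>
    intro P d ss e d' h h'
    obtain ⟨s2, d₁, h1, h2⟩ := h'
    exact ih (comp P Q) d _ d₁ d' (run_comp h h1) h2

theorem run_chain_cases {I : X → V} (T : X → Prop) :
    ∀ (L : List (Prog X V D' D')) (P : Prog X V D D') (d : D)
    (ss : List (chain P L).Q) (d' : D'),
      (∀ Q ∈ L, ∀ e s e', Run Q I e s e' → ∀ x ∈ s, T (Q.lab x)) →
      Run (chain P L) I d ss d' →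
      ∃ s e, Run P I d s e ∧ RunList I L e d' ∧
        ((∀ x ∈ s, T (P.lab x)) → ∀ x ∈ ss, T ((chain P L).lab x)) := by
  intro L
  induction L with
  | nil =>
    intro P d ss d' _ h
    exact ⟨ss, d', h, rfl, fun h => h⟩
  | cons Q L ih =>
    intro P d ss d' hT h
    obtain ⟨s, e, h1, h2, h3⟩ := ih (comp P Q) d ss d'
      (fun R hR => hT R (List.mem_cons_of_mem _ hR)) h
    obtain ⟨s₁, s₂, f, rfl, h4, h5⟩ := run_comp_cases h1
    exact ⟨s₁, f, h4, ⟨s₂, e, h5, h2⟩, fun h6 =>
      h3 (mem_jn h6 (hT Q List.mem_cons_self _ _ _ h5))⟩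

theorem chain_uniq {I : X → V} : ∀ (L : List (Prog X V D' D')) (P : Prog X V D D') (d : D)
    (ss ss' : List (chain P L).Q) (d' d'' : D'), (∀ Q ∈ L, Q.Uniq) →
      Run (chain P L) I d ss d' → Run (chain P L) I d ss' d'' →
      (∀ s e s' e', Run P I d s e → Run P I d s' e' → RunList I L e d' → RunList I L e' d'' →
        s = s' ∧ e = e') → ss = ss' ∧ d' = d'' := by
  intro L
  induction L with
  | nil =>
    intro P d ss ss' d' d'' _ h h' hu
    exact hu _ _ _ _ h h' rfl rfl
  | cons Q L ih =>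
    intro P d ss ss' d' d'' hQ h h' hu
    refine ih (comp P Q) d ss ss' d' d'' (fun R hR => hQ R (List.mem_cons_of_mem _ hR)) h h' ?_
    intro s e s' e' h1 h2 h3 h4
    obtain ⟨a, b, f, rfl, h5, h6⟩ := run_comp_cases h1
    obtain ⟨a', b', f', rfl, h5', h6'⟩ := run_comp_cases h2
    obtain ⟨rfl, rfl⟩ := hu _ _ _ _ h5 h5' ⟨b, e, h6, h3⟩ ⟨b', e', h6', h4⟩
    obtain ⟨rfl, rfl⟩ := hQ Q List.mem_cons_self _ _ _ _ _ _ h6 h6'
    exact ⟨rfl, rfl⟩

theorem det_chain : ∀ (L : List (Prog X V D' D')) (P : Prog X V D D'), P.Det → (chain P L).Det := by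
  intro L
  induction L with
  | nil => intro P h; exact h
  | cons Q L ih => intro P h; exact ih _ (det_comp Q h)

theorem size_chain (b : ℕ) : ∀ (L : List (Prog X V D' D')) (P : Prog X V D D'),
    (∀ Q ∈ L, Q.size ≤ b) → (chain P L).size ≤ P.size + L.length * b := by
  intro L
  induction L with
  | nil => intro P _; simp [chain]
  | cons Q L ih =>
    intro P h
    have h1 := ih (comp P Q) (fun R hR => h R (List.mem_cons_of_mem _ hR))
    have h2 := h Q List.mem_cons_self
    rw [size_comp] at h1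
    rw [chain, List.length_cons]
    calc (chain (comp P Q) L).size ≤ P.size + Q.size + L.length * b := h1
      _ ≤ P.size + b + L.length * b := by omega
      _ = P.size + (L.length + 1) * b := by ring

end Prog

section

variable {X : Type} {k p N : ℕ} {V₀ κ : Type} [Fintype κ] [DecidableEq κ]
  (Γ : Gadget V₀ N) (a : κ → Bool × Fin p → κ) (part : Fin p → Fin k → V₀)

/-- the slots for the colours of one level -/
abbrev Slots (Γ : Gadget V₀ N) (p : ℕ) : Type := Bool × Fin p → Γ.C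

/-- the child of a node, as an embedding of its variables -/
def child {n : ℕ} (emb : Var k (n + 1) → X) (b : Bool) : Var k n → X :=
  fun v => emb (if b then Var.right v else Var.left v)

/-- value of the child -/
def uval {n : ℕ} (I : X → Fin k) (emb : Var k (n + 1) → X) (b : Bool) : Fin k :=
  value n fun v => I (child emb b v)

/-- read the colours of the parts of the left child's value (into all slots) -/
def readL (i : κ) (E : Type) (d : (κ → Γ.G) × E) (v : Fin k)
    (d' : (κ → Γ.G) × (E × Slots Γ p)) : Prop :=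
  d'.1 = d.1 ∧ d'.2.1 = d.2 ∧
    ∀ b : Bool × Fin p, d'.2.2 b = Γ.color (part b.2 v) (d.1 (a i b))

/-- read the colours of the parts of the right child's value -/
def readR (i : κ) (E : Type) (d : (κ → Γ.G) × (E × Slots Γ p)) (v : Fin k)
    (d' : (κ → Γ.G) × (E × Slots Γ p)) : Prop :=
  d'.1 = d.1 ∧ d'.2.1 = d.2.1 ∧
    ∀ r, d'.2.2 (false, r) = d.2.2 (false, r) ∧
      d'.2.2 (true, r) = Γ.color (part r v) (d.1 (a i (true, r)))

/-- the guessed values -/
def gsel (g : Fin k × Fin k) (b : Bool) : Fin k := if b then g.2 else g.1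

/-- query the node with guessed values, perform the operation and load the guesses -/
def mid (i : κ) (E E' : Type)
    (op : (κ → Γ.G) × E → Fin k → (κ → Γ.G) × E' → Prop)
    (d : (κ → Γ.G) × (E × Slots Γ p)) (g : Fin k × Fin k) (v : Fin k)
    (d' : (κ → Γ.G) × (E' × Slots Γ p)) : Prop :=
  ∃ d1 : (κ → Γ.G) × E', op (d.1, d.2.1) v d1 ∧ d'.2.1 = d1.2 ∧ d'.2.2 = d.2.2 ∧
    (∀ b, Γ.load (part b.2 (gsel g b.1)) (d1.1 (a i b)) = some (d'.1 (a i b))) ∧
    ∀ c, (∀ b, c ≠ a i b) → d'.1 c = d1.1 c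

/-- unload one part and check the colour -/
def check (i : κ) (E : Type) (b : Bool × Fin p)
    (d : (κ → Γ.G) × (E × Slots Γ p)) (v : Fin k) (d' : (κ → Γ.G) × (E × Slots Γ p)) : Prop :=
  d'.2 = d.2 ∧ Γ.unload (part b.2 v) (d.1 (a i b)) = some (d'.1 (a i b)) ∧
    Γ.color (part b.2 v) (d'.1 (a i b)) = d.2.2 b ∧ ∀ c, c ≠ a i b → d'.1 c = d.1 c

/-- correctness of a program for a node -/
def Good {n : ℕ} {E E' : Type} (P : Prog X (Fin k) ((κ → Γ.G) × E) ((κ → Γ.G) × E'))
    (emb : Var k n → X) (l : ℕ) (op : (κ → Γ.G) × E → Fin k → (κ → Γ.G) × E' → Prop) : Prop :=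
  P.Det ∧ P.Uniq ∧
  (∀ I d ss d', Run P I d ss d' → op d (value n fun v => I (emb v)) d' ∧
    ∀ x ∈ ss, ∃ v, P.lab x = emb v ∧ Right n (fun v => I (emb v)) v) ∧
  (∀ I d d', (∀ c, Γ.Lvl l (d.1 c)) → (∀ c, Γ.Lvl l (d'.1 c)) →
    op d (value n fun v => I (emb v)) d' → ∃ ss, Run P I d ss d')

/-- the size recursion -/
def sig (cc p k : ℕ) : ℕ → ℕ
  | 0 => 1
  | n + 1 => cc * ((2 * p + 2) * sig cc p k n + k ^ 2)

theorem readL_fun (i : κ) (E : Type) : ∀ d v d₁ d₂, readL Γ a part i E d v d₁ →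
    readL Γ a part i E d v d₂ → d₁ = d₂ := by
  rintro d v ⟨H₁, e₁, s₁⟩ ⟨H₂, e₂, s₂⟩ ⟨h1, h2, h3⟩ ⟨h4, h5, h6⟩
  obtain rfl : H₁ = d.1 := h1
  obtain rfl : H₂ = d.1 := h4
  obtain rfl : e₁ = d.2 := h2
  obtain rfl : e₂ = d.2 := h5
  have : s₁ = s₂ := funext fun b => (h3 b).trans (h6 b).symm
  rw [this]

theorem readR_fun (i : κ) (E : Type) : ∀ d v d₁ d₂, readR Γ a part i E d v d₁ →
    readR Γ a part i E d v d₂ → d₁ = d₂ := by
  rintro d v ⟨H₁, e₁, s₁⟩ ⟨H₂, e₂, s₂⟩ ⟨h1, h2, h3⟩ ⟨h4, h5, h6⟩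
  obtain rfl : H₁ = d.1 := h1
  obtain rfl : H₂ = d.1 := h4
  obtain rfl : e₁ = d.2.1 := h2
  obtain rfl : e₂ = d.2.1 := h5
  have : s₁ = s₂ := by
    funext ⟨b, r⟩
    cases b
    · exact (h3 r).1.trans (h6 r).1.symm
    · exact (h3 r).2.trans (h6 r).2.symm
  rw [this]

theorem check_fun (i : κ) (E : Type) (b : Bool × Fin p) : ∀ d v d₁ d₂,
    check Γ a part i E b d v d₁ → check Γ a part i E b d v d₂ → d₁ = d₂ := by
  rintro d v ⟨H₁, e₁⟩ ⟨H₂, e₂⟩ ⟨h1, h2, -, h3⟩ ⟨h4, h5, -, h6⟩
  obtain rfl : e₁ = d.2 := h1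
  obtain rfl : e₂ = d.2 := h4
  have : H₁ = H₂ := by
    funext c
    by_cases hc : c = a i b
    · subst hc
      exact Option.some.inj (h2.symm.trans h5)
    · exact (h3 c hc).trans (h6 c hc).symm
  rw [this]

theorem mid_fun (i : κ) (E E' : Type) (op : (κ → Γ.G) × E → Fin k → (κ → Γ.G) × E' → Prop)
    (hop : ∀ d v d₁ d₂, op d v d₁ → op d v d₂ → d₁ = d₂) : ∀ d g v d₁ d₂,
    mid Γ a part i E E' op d g v d₁ → mid Γ a part i E E' op d g v d₂ → d₁ = d₂ := by
  rintro d g v ⟨H₁, e₁, s₁⟩ ⟨H₂, e₂, s₂⟩ ⟨f, m1, m2, m3, m4, m5⟩ ⟨f', n1, n2, n3, n4, n5⟩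
  obtain rfl := hop _ _ _ _ m1 n1
  obtain rfl : e₁ = f.2 := m2
  obtain rfl : e₂ = f.2 := n2
  obtain rfl : s₁ = d.2.2 := m3
  obtain rfl : s₂ = d.2.2 := n3
  have : H₁ = H₂ := by
    funext c
    by_cases hc : ∃ b, c = a i b
    · obtain ⟨b, rfl⟩ := hc
      exact Option.some.inj ((m4 b).symm.trans (n4 b))
    · push Not at hc
      exact (m5 c hc).trans (n5 c hc).symm
  rw [this]

theorem runList_sound {n : ℕ} (hinj : ∀ i, Function.Injective (a i)) (i : κ) (E : Type)
    (emb : Var k (n + 1) → X) (l : ℕ) (I : X → Fin k)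
    (Q : Bool × Fin p → Prog X (Fin k) ((κ → Γ.G) × (E × Slots Γ p)) ((κ → Γ.G) × (E × Slots Γ p)))
    (hQ : ∀ b, Good Γ (Q b) (child emb b.1) l (check Γ a part i E b)) :
    ∀ (L : List (Bool × Fin p)), L.Nodup → ∀ d d', RunList I (L.map Q) d d' →
      d'.2 = d.2 ∧ (∀ b ∈ L, Γ.unload (part b.2 (uval I emb b.1)) (d.1 (a i b)) =
        some (d'.1 (a i b)) ∧ Γ.color (part b.2 (uval I emb b.1)) (d'.1 (a i b)) = d.2.2 b) ∧
      (∀ c, (∀ b ∈ L, c ≠ a i b) → d'.1 c = d.1 c) := by
  intro L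
  induction L with
  | nil =>
    intro _ d d' h
    cases h
    simp
  | cons b L ih =>
    intro hnd d d' h
    rw [List.map_cons] at h
    obtain ⟨ss, d₁, h1, h2⟩ := h
    rw [List.nodup_cons] at hnd
    obtain ⟨ih1, ih2, ih3⟩ := ih hnd.2 d₁ d' h2
    obtain ⟨⟨c1, c2, c3, c4⟩, -⟩ := (hQ b).2.2.1 I d ss d₁ h1
    have hne : ∀ b' ∈ L, a i b' ≠ a i b := by
      intro b' hb' he
      exact hnd.1 (hinj i he ▸ hb')
    have hb : d'.1 (a i b) = d₁.1 (a i b) :=
      ih3 _ (fun b' hb' he => hne b' hb' he.symm)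
    refine ⟨ih1.trans c1, ?_, ?_⟩
    · intro b' hb'
      rcases List.mem_cons.1 hb' with rfl | hb'
      · rw [hb]
        exact ⟨c2, c3⟩
      · have := ih2 b' hb'
        rw [c1, c4 _ (hne b' hb')] at this
        exact this
    · intro c hc
      rw [ih3 c (fun b' hb' => hc b' (List.mem_cons_of_mem _ hb')),
        c4 c (hc b List.mem_cons_self)]

theorem runList_complete {n : ℕ} (hinj : ∀ i, Function.Injective (a i)) (i : κ) (E : Type)
    (emb : Var k (n + 1) → X) (l : ℕ) (I : X → Fin k)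
    (Q : Bool × Fin p → Prog X (Fin k) ((κ → Γ.G) × (E × Slots Γ p)) ((κ → Γ.G) × (E × Slots Γ p)))
    (hQ : ∀ b, Good Γ (Q b) (child emb b.1) l (check Γ a part i E b))
    (T : κ → Γ.G) (hT : ∀ c, Γ.Lvl l (T c)) (e : E) (sl : Slots Γ p)
    (hsl : ∀ b, Γ.color (part b.2 (uval I emb b.1)) (T (a i b)) = sl b) :
    ∀ (L : List (Bool × Fin p)), L.Nodup → ∀ H : κ → Γ.G, (∀ c, Γ.Lvl l (H c)) →
      (∀ b ∈ L, Γ.unload (part b.2 (uval I emb b.1)) (H (a i b)) = some (T (a i b))) →
      (∀ c, (∀ b ∈ L, c ≠ a i b) → H c = T c) →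
      RunList I (L.map Q) (H, (e, sl)) (T, (e, sl)) := by
  intro L
  induction L with
  | nil =>
    intro _ H _ _ h
    have : H = T := funext fun c => h c (by simp)
    rw [this]
    rfl
  | cons b L ih =>
    intro hnd H hH hu hc
    rw [List.nodup_cons] at hnd
    have hne : ∀ b' ∈ L, a i b' ≠ a i b := by
      intro b' hb' he
      exact hnd.1 (hinj i he ▸ hb')
    have hH' : ∀ c, Γ.Lvl l (Function.update H (a i b) (T (a i b)) c) := by
      intro c
      by_cases h : c = a i b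
      · subst h
        rw [Function.update_self]
        exact hT _
      · rw [Function.update_of_ne h]
        exact hH c
    have h2 := ih hnd.2 (Function.update H (a i b) (T (a i b))) hH'
      (fun b' hb' => by
        rw [Function.update_of_ne (hne b' hb')]
        exact hu b' (List.mem_cons_of_mem _ hb'))
      (fun c hc' => by
        by_cases h : c = a i b
        · subst h
          rw [Function.update_self]
        · rw [Function.update_of_ne h]
          refine hc c ?_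
          intro b' hb'
          rcases List.mem_cons.1 hb' with rfl | hb'
          · exact h
          · exact hc' b' hb')
    obtain ⟨ss, h1⟩ := (hQ b).2.2.2 I (H, (e, sl))
      (Function.update H (a i b) (T (a i b)), (e, sl)) hH hH'
      ⟨rfl, by
        simp only [Function.update_self]
        exact hu b List.mem_cons_self, by
        simp only [Function.update_self]
        exact hsl b, by
        intro c hc'
        simp only [Function.update_of_ne hc']⟩
    exact ⟨ss, _, h1, h2⟩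

end

end Pool.Agent.Lib_helper16.TEP
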