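import Pool.Agent.Lib_helper16.TEP.Defs

/-! Composable nondeterministic query programs. -/

namespace Pool.Agent.Lib_helper16.TEP

/-- A program reading variables in `X` with values in `V`, transforming data in `D` to data
in `D'`.  Every state is a query. -/
structure Prog (X V D D' : Type) where
  Q : Type
  [fin : Fintype Q]
  lab : Q → X
  enter : D → Q → Prop
  step : Q → V → Q → Prop
  leave : Q → V → D' → Prop

attribute [instance] Prog.fin

namespace Prog

variable {X V D D' D'' : Type}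

/-- a path from a state to an exit, with the list of visited states -/
inductive Path (P : Prog X V D D') (I : X → V) : P.Q → List P.Q → D' → Prop
  | last {q d'} (h : P.leave q (I (P.lab q)) d') : Path P I q [q] d'
  | cons {q q' ss d'} (h : P.step q (I (P.lab q)) q') (h' : Path P I q' ss d') :
      Path P I q (q :: ss) d'

/-- complete run -/
def Run (P : Prog X V D D') (I : X → V) (d : D) (ss : List P.Q) (d' : D') : Prop :=
  ∃ q, P.enter d q ∧ Path P I q ss d'

/-- unique entry state -/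
def Det (P : Prog X V D D') : Prop := ∀ d, ∃ q0, ∀ q, P.enter d q ↔ q = q0

/-- complete runs are unique -/
def Uniq (P : Prog X V D D') : Prop :=
  ∀ I d ss d' ss' d'', Run P I d ss d' → Run P I d ss' d'' → ss = ss' ∧ d' = d''

/-- number of states -/
def size (P : Prog X V D D') : ℕ := Fintype.card P.Q

/-- sequential composition -/
def comp (P₁ : Prog X V D D') (P₂ : Prog X V D' D'') : Prog X V D D'' where
  Q := P₁.Q ⊕ P₂.Q
  lab := Sum.elim P₁.lab P₂.lab
  enter := fun d q => ∃ q1, q = Sum.inl q1 ∧ P₁.enter d q1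
  step := fun q v q' =>
    (∃ a b, q = Sum.inl a ∧ q' = Sum.inl b ∧ P₁.step a v b) ∨
    (∃ a b d', q = Sum.inl a ∧ q' = Sum.inr b ∧ P₁.leave a v d' ∧ P₂.enter d' b) ∨
    (∃ a b, q = Sum.inr a ∧ q' = Sum.inr b ∧ P₂.step a v b)
  leave := fun q v d'' => ∃ a, q = Sum.inr a ∧ P₂.leave a v d''

/-- the states of a composite run -/
def jn (P₁ : Prog X V D D') (P₂ : Prog X V D' D'') (s₁ : List P₁.Q) (s₂ : List P₂.Q) :
    List (comp P₁ P₂).Q := (s₁.map Sum.inl : List (P₁.Q ⊕ P₂.Q)) ++ s₂.map Sum.inr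

theorem mem_jn {P₁ : Prog X V D D'} {P₂ : Prog X V D' D''} {s₁ : List P₁.Q} {s₂ : List P₂.Q}
    {T : X → Prop} (h₁ : ∀ s ∈ s₁, T (P₁.lab s)) (h₂ : ∀ s ∈ s₂, T (P₂.lab s)) :
    ∀ s ∈ jn P₁ P₂ s₁ s₂, T ((comp P₁ P₂).lab s) := by
  intro s hs
  rcases List.mem_append.1 hs with hs | hs
  · obtain ⟨a, ha, rfl⟩ := List.mem_map.1 hs
    exact h₁ a ha
  · obtain ⟨a, ha, rfl⟩ := List.mem_map.1 hs
    exact h₂ a ha

theorem size_comp (P₁ : Prog X V D D') (P₂ : Prog X V D' D'') :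
    (comp P₁ P₂).size = P₁.size + P₂.size := by
  simp [size, comp, Fintype.card_sum]

theorem path_comp_inr {P₁ : Prog X V D D'} {P₂ : Prog X V D' D''} {I : X → V}
    {q : P₂.Q} {ss : List P₂.Q} {d : D''} (h : Path P₂ I q ss d) :
    Path (comp P₁ P₂) I (Sum.inr q) (jn P₁ P₂ [] ss) d := by
  induction h with
  | last h => exact Path.last (P := comp P₁ P₂) (q := Sum.inr _) ⟨_, rfl, h⟩
  | cons h _ ih =>
    exact Path.cons (P := comp P₁ P₂) (q := Sum.inr _) (Or.inr (Or.inr ⟨_, _, rfl, rfl, h⟩)) ih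

theorem path_comp_inl {P₁ : Prog X V D D'} {P₂ : Prog X V D' D''} {I : X → V}
    {q : P₁.Q} {s₁ : List P₁.Q} {s₂ : List P₂.Q} {d : D'} {d' : D''} (h : Path P₁ I q s₁ d)
    (h' : Run P₂ I d s₂ d') :
    Path (comp P₁ P₂) I (Sum.inl q) (jn P₁ P₂ s₁ s₂) d' := by
  induction h with
  | last h =>
    obtain ⟨q2, he, hp⟩ := h'
    exact Path.cons (P := comp P₁ P₂) (q := Sum.inl _)
      (Or.inr (Or.inl ⟨_, _, _, rfl, rfl, h, he⟩)) (path_comp_inr hp)
  | cons h _ ih =>
    exact Path.cons (P := comp P₁ P₂) (q := Sum.inl _) (Or.inl ⟨_, _, rfl, rfl, h⟩) (ih h')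

theorem run_comp {P₁ : Prog X V D D'} {P₂ : Prog X V D' D''} {I : X → V}
    {s₁ : List P₁.Q} {s₂ : List P₂.Q} {d : D} {d' : D'} {d'' : D''} (h : Run P₁ I d s₁ d')
    (h' : Run P₂ I d' s₂ d'') : Run (comp P₁ P₂) I d (jn P₁ P₂ s₁ s₂) d'' := by
  obtain ⟨q, he, hp⟩ := h
  exact ⟨Sum.inl q, ⟨q, rfl, he⟩, path_comp_inl hp h'⟩

theorem path_comp_cases {P₁ : Prog X V D D'} {P₂ : Prog X V D' D''} {I : X → V}
    {q : (comp P₁ P₂).Q} {ss : List (comp P₁ P₂).Q} {d : D''} (h : Path (comp P₁ P₂) I q ss d) :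
    (∀ a, q = Sum.inr a → ∃ s₂, ss = jn P₁ P₂ [] s₂ ∧ Path P₂ I a s₂ d) ∧
    (∀ a, q = Sum.inl a → ∃ s₁ s₂ d', ss = jn P₁ P₂ s₁ s₂ ∧ Path P₁ I a s₁ d' ∧
      Run P₂ I d' s₂ d) := by
  induction h with
  | @last q d h =>
    obtain ⟨a, rfl, ha⟩ := h
    refine ⟨?_, ?_⟩
    · intro b hb
      cases hb
      exact ⟨[a], rfl, Path.last ha⟩
    · intro b hb
      cases hb
  | @cons q q' ss d h h' ih =>
    rcases h with ⟨a, b, rfl, rfl, hs⟩ | ⟨a, b, d', rfl, rfl, hl, he⟩ | ⟨a, b, rfl, rfl, hs⟩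
    · refine ⟨fun c hc => (by cases hc), ?_⟩
      intro c hc
      cases hc
      obtain ⟨s₁, s₂, d', rfl, h1, h2⟩ := ih.2 b rfl
      exact ⟨a :: s₁, s₂, d', rfl, Path.cons hs h1, h2⟩
    · refine ⟨fun c hc => (by cases hc), ?_⟩
      intro c hc
      cases hc
      obtain ⟨s₂, rfl, h2⟩ := ih.1 b rfl
      exact ⟨[a], s₂, d', rfl, Path.last hl, b, he, h2⟩
    · refine ⟨?_, fun c hc => (by cases hc)⟩
      intro c hc
      cases hc
      obtain ⟨s₂, rfl, h2⟩ := ih.1 b rfl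
      exact ⟨a :: s₂, rfl, Path.cons hs h2⟩

theorem run_comp_cases {P₁ : Prog X V D D'} {P₂ : Prog X V D' D''} {I : X → V}
    {d : D} {ss : List (comp P₁ P₂).Q} {d'' : D''} (h : Run (comp P₁ P₂) I d ss d'') :
    ∃ s₁ s₂ d', ss = jn P₁ P₂ s₁ s₂ ∧ Run P₁ I d s₁ d' ∧ Run P₂ I d' s₂ d'' := by
  obtain ⟨q, ⟨q1, rfl, he⟩, hp⟩ := h
  obtain ⟨s₁, s₂, d', h1, h2, h3⟩ := (path_comp_cases hp).2 q1 rfl
  exact ⟨s₁, s₂, d', h1, ⟨q1, he, h2⟩, h3⟩

theorem det_comp {P₁ : Prog X V D D'} (P₂ : Prog X V D' D'') (h : P₁.Det) :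
    (comp P₁ P₂).Det := by
  intro d
  obtain ⟨q0, hq⟩ := h d
  refine ⟨Sum.inl q0, fun q => ⟨?_, ?_⟩⟩
  · rintro ⟨q1, rfl, he⟩
    rw [(hq q1).1 he]
  · rintro rfl
    exact ⟨q0, rfl, (hq q0).2 rfl⟩

/-- change the output data by a function -/
def mapOut (P : Prog X V D D') (f : D' → D'') : Prog X V D D'' where
  Q := P.Q
  lab := P.lab
  enter := P.enter
  step := P.step
  leave := fun q v d'' => ∃ d', P.leave q v d' ∧ f d' = d''

theorem size_mapOut (P : Prog X V D D') (f : D' → D'') : (P.mapOut f).size = P.size := rfl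

theorem det_mapOut {P : Prog X V D D'} (f : D' → D'') (h : P.Det) : (P.mapOut f).Det := h

theorem run_mapOut {P : Prog X V D D'} {f : D' → D''} {I : X → V} {d : D} {ss : List P.Q}
    {d'' : D''} : Run (P.mapOut f) I d ss d'' ↔ ∃ d', Run P I d ss d' ∧ f d' = d'' := by
  constructor
  · rintro ⟨q, he, hp⟩
    have key : ∀ {q : (P.mapOut f).Q} {ss : List (P.mapOut f).Q} {d'' : D''},
        Path (P.mapOut f) I q ss d'' → ∃ d', Path P I q ss d' ∧ f d' = d'' := by
      intro q ss d'' h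
      induction h with
      | last h =>
        obtain ⟨d', h1, h2⟩ := h
        exact ⟨d', Path.last h1, h2⟩
      | cons h _ ih =>
        obtain ⟨d', h1, h2⟩ := ih
        exact ⟨d', Path.cons h h1, h2⟩
    obtain ⟨d', h1, h2⟩ := key hp
    exact ⟨d', ⟨q, he, h1⟩, h2⟩
  · rintro ⟨d', ⟨q, he, hp⟩, rfl⟩
    refine ⟨q, he, ?_⟩
    clear he
    induction hp with
    | last h => exact Path.last (P := P.mapOut f) ⟨_, h, rfl⟩
    | cons h _ ih => exact Path.cons (P := P.mapOut f) h ih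

/-- the program with one layer of queries: the data `d` and a guess `g` determine the query,
and `(d, g)`, the answer and the new data are related by `r`. -/
def layer {G : Type} [Fintype D] [Fintype G] (lab : G → X) (r : D → G → V → D' → Prop) :
    Prog X V D D' where
  Q := D × G
  lab := fun q => lab q.2
  enter := fun d q => q.1 = d
  step := fun _ _ _ => False
  leave := fun q v d' => r q.1 q.2 v d'

theorem size_layer {G : Type} [Fintype D] [Fintype G] (lab : G → X)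
    (r : D → G → V → D' → Prop) :
    (layer lab r).size = Fintype.card D * Fintype.card G := by
  exact Fintype.card_prod D G

theorem path_layer {G : Type} [Fintype D] [Fintype G] {lab : G → X}
    {r : D → G → V → D' → Prop} {I : X → V} {q : (layer lab r).Q} {ss : List (layer lab r).Q}
    {d' : D'} (h : Path (layer lab r) I q ss d') :
    ss = [q] ∧ r q.1 q.2 (I (lab q.2)) d' := by
  induction h with
  | last h => exact ⟨rfl, h⟩
  | cons h _ _ => exact h.elim

theorem run_layer {G : Type} [Fintype D] [Fintype G] {lab : G → X}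
    {r : D → G → V → D' → Prop} {I : X → V} {d : D} {ss : List (layer lab r).Q} {d' : D'} :
    Run (layer lab r) I d ss d' ↔ ∃ g, ss = [(d, g)] ∧ r d g (I (lab g)) d' := by
  constructor
  · rintro ⟨⟨q1, g⟩, he, hp⟩
    have he' : q1 = d := he
    subst he'
    exact ⟨g, path_layer hp⟩
  · rintro ⟨g, rfl, h⟩
    exact ⟨(d, g), rfl, Path.last (P := layer lab r) (q := (d, g)) h⟩

end Prog

end Pool.Agent.Lib_helper16.TEP
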